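import Pool.Agent.H988.RS.Vn

/-! # Weak mixing for all states -/

set_option autoImplicit false
set_option linter.unusedSectionVars false

open MeasureTheory Filter Topology Set
open scoped ENNReal NNReal InnerProductSpace ComplexConjugate

namespace Pool.Agent.H988.RS

open Pool.Agent.TH980.IM Pool.Agent.H5R2
open Pool.Agent.Y662.ERG
open Pool.Agent.TH980.IM.PR
open Pool.Agent.R988.NQ
open Pool.Agent.H988.WM

section wa

variable {d : ℕ} {ev : (NB.Site d → ℝ) → NB.UG (L2 d)}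

/-- the identity as a field -/
noncomputable def idF (d : ℕ) : OF d := fun _ => ContinuousLinearMap.id ℂ (L2 d)

theorem idF_fld : Fld 1 (idF d) := by
  refine ⟨fun V ψ => ?_, fun f hf => hf, fun z S hS V ψ => rfl⟩
  rw [one_mul]
  exact le_rfl

theorem idF_sym : Sym (idF d) := fun V f g => rfl

theorem pc00 (hd : 1 ≤ d) {K : ℝ} {ν : Measure ℝ} [IsProbabilityMeasure ν]
    (hK : ∀ᵐ r ∂ν, |r| ≤ K) (hac : ν ≪ volume)
    (hev : ∀ ω : NB.Site d → ℝ, NB.IsGrp (-1) (fun x => 2 * d + ω x) (ev ω))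
    {A B : OF d} {M C : ℝ} (hM : 0 ≤ M) (hC : 0 ≤ C) (hA : Fld M A) (hA' : Fld M (adjF A))
    (hB : Fld C B) (hB' : Fld C (adjF B))
    (cB : ∀ V t x, B V ((ev V).U t x) = (ev V).U t (B V x))
    (lB : ∀ᵐ V ∂(NB.PP d ν), ∀ x, Tendsto (fun N : ℕ => av 0 id (ev V) (A V) N x) atTop
        (𝓝 (B V x))) :
    PC (NB.PP d ν) (Yc ev (subF A B) (idF d) 0) (M + C) := by
  have hP : Fld 1 (idF d) := idF_fld
  have hD : Fld (M + C) (subF A B) := hA.sub hB
  have hadj : adjF (subF A B) = subF (adjF A) (adjF B) := by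
    funext V
    show ContinuousLinearMap.adjoint (A V - B V) =
      ContinuousLinearMap.adjoint (A V) - ContinuousLinearMap.adjoint (B V)
    exact map_sub _ _ _
  have hD' : Fld (M + C) (adjF (subF A B)) := by
    rw [hadj]
    exact hA'.sub hB'
  have aD : Adj (subF A B) (adjF (subF A B)) := fun V f g => (adjF_right _ V f g).symm
  have hMC : 0 ≤ M + C := add_nonneg hM hC
  have hPn : ∀ ω, ‖idF d ω (NB.dl 0)‖ ≤ 1 := fun ω => hP.nb ω
  have hbd : ∀ s ω, ‖Yc ev (subF A B) (idF d) 0 s ω‖ ≤ M + C := by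
    intro s ω
    unfold Yc
    rw [(ev ω).norm']
    refine (hD.bd ω _).trans ?_
    rw [(ev ω).norm']
    calc (M + C) * ‖idF d ω (NB.dl 0)‖ ≤ (M + C) * 1 := mul_le_mul_of_nonneg_left (hPn ω) hMC
      _ = M + C := mul_one _
  have hct : ∀ ω, Continuous fun s => Yc ev (subF A B) (idF d) 0 s ω := fun ω =>
    NB.LIMB.cont_P (ev ω) (subF A B ω) (idF d ω (NB.dl 0))
  have hms : ∀ s, StronglyMeasurable (Yc ev (subF A B) (idF d) 0 s) := fun s =>
    (fld_Uo hev (-s)).meas _ (hD.meas _ ((fld_Uo hev s).meas _ hP.sm))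
  refine ⟨hbd, hct, hms, fun s t a => ?_, fun μ => ?_⟩
  · -- stationarity
    set G : ℝ → OF d := fun s => mulF (Uf ev (-s)) (mulF (subF A B) (Uf ev s)) with hG
    have hGf : ∀ s, Fld (1 * ((M + C) * 1)) (G s) := fun s =>
      ((fld_Uo hev (-s)).mul zero_le_one (hD.mul hMC (fld_Uo hev s)))
    set G' : ℝ → OF d := fun s => mulF (mulF (Uf ev (-s)) (adjF (subF A B)))
      (Uf ev (-(-s))) with hG'
    have hGf' : ∀ s, Fld ((1 * (M + C)) * 1) (G' s) := fun s =>
      ((((fld_Uo hev (-s)).mul zero_le_one hD')).mul (by simpa using hMC)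
        (fld_Uo hev (-(-s))))
    have hadG : ∀ s, Adj (G s) (G' s) := fun s =>
      Adj.mul (adj_U (-s)) (Adj.mul aD (adj_U s))
    have h0 : (0 : ℝ) ≤ 1 * ((M + C) * 1) := by simpa using hMC
    have h1 := flow_inner (ν := ν) hev h0 h0 (hGf s) (hGf' s) (hGf t) (hGf' t) (hadG s) (hadG t) a
    have h2 : ∀ s, ∀ V, Yc ev (subF A B) (idF d) 0 (s + a) V =
        (ev V).U (-a) (G s V ((ev V).U a (NB.dl 0))) := by
      intro s V
      show (ev V).U (-(s + a)) (subF A B V ((ev V).U (s + a) (NB.dl 0))) =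
        (ev V).U (-a) ((ev V).U (-s) (subF A B V ((ev V).U s ((ev V).U a (NB.dl 0)))))
      rw [neg_add_rev, (ev V).add', (ev V).add']
    have h3 : ∫ V, ⟪Yc ev (subF A B) (idF d) 0 (s + a) V, Yc ev (subF A B) (idF d) 0 (t + a) V⟫_ℂ
        ∂(NB.PP d ν) = ∫ V, ⟪G s V ((ev V).U a (NB.dl 0)), G t V ((ev V).U a (NB.dl 0))⟫_ℂ
        ∂(NB.PP d ν) := by
      refine integral_congr_ae (Eventually.of_forall fun V => ?_)
      show ⟪Yc ev (subF A B) (idF d) 0 (s + a) V, Yc ev (subF A B) (idF d) 0 (t + a) V⟫_ℂ = _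
      rw [h2 s V, h2 t V, NB.NN.inner_adj, neg_neg, ← (ev V).add', add_neg_cancel, (ev V).zero']
    rw [h3, h1]
    rfl
  · -- averages
    change Tendsto (fun N : ℕ => ∫⁻ ω, ‖av μ id (ev ω) (subF A B ω) N
      (idF d ω (NB.dl 0))‖ₑ ^ 2 ∂(NB.PP d ν)) atTop (𝓝 0)
    by_cases hμ : μ = 0
    · subst hμ
      have h5 : Tendsto (fun N : ℕ => ∫⁻ ω, ‖av 0 id (ev ω) (subF A B ω) N
          (idF d ω (NB.dl 0))‖ₑ ^ 2 ∂(NB.PP d ν)) atTop (𝓝 (∫⁻ _ω, 0 ∂(NB.PP d ν))) := by
        refine tendsto_lintegral_of_dominated_convergence'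
          (fun _ => ENNReal.ofReal ((M + C) ^ 2)) (fun N => ?_) (fun N => ?_) ?_ ?_
        · have h6 := sm_mean hct hms 0 N
          exact ((h6.enorm).pow_const 2).aemeasurable
        · refine Eventually.of_forall fun ω => ?_
          show ‖av 0 id (ev ω) (subF A B ω) N (idF d ω (NB.dl 0))‖ₑ ^ 2 ≤ _
          rw [← ofReal_norm, ← ENNReal.ofReal_pow (norm_nonneg _)]
          refine ENNReal.ofReal_le_ofReal (pow_le_pow_left₀ (norm_nonneg _) ?_ 2)
          refine (av_norm 0 id (ev ω) (subF A B ω) N _).trans ?_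
          calc ‖subF A B ω‖ * ‖idF d ω (NB.dl 0)‖ ≤ (M + C) * 1 :=
                mul_le_mul (ContinuousLinearMap.opNorm_le_bound _ hMC (hD.bd ω)) (hPn ω)
                  (norm_nonneg _) hMC
            _ = M + C := mul_one _
        · rw [lintegral_const]
          simp
        · filter_upwards [lB] with ω hω
          have h7 := (hω (idF d ω (NB.dl 0))).sub_const (B ω (idF d ω (NB.dl 0)))
          rw [sub_self] at h7
          have h8 : Tendsto (fun N : ℕ => av 0 id (ev ω) (subF A B ω) N (idF d ω (NB.dl 0))) atTop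
              (𝓝 0) := by
            refine h7.congr' ?_
            filter_upwards [eventually_gt_atTop 0] with N hN
            have hNc : (N : ℂ) ≠ 0 := Nat.cast_ne_zero.2 hN.ne'
            have e1 : av 0 id (ev ω) (subF A B ω) N (idF d ω (NB.dl 0)) =
                av 0 id (ev ω) (A ω) N (idF d ω (NB.dl 0)) +
                (-1 : ℂ) • av 0 id (ev ω) (B ω) N (idF d ω (NB.dl 0)) := by
              rw [← av_smul, ← av_add]
              congr 1
              show A ω - B ω = A ω + (-1 : ℂ) • B ω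
              module
            have e2 : av 0 id (ev ω) (B ω) N (idF d ω (NB.dl 0)) = B ω (idF d ω (NB.dl 0)) := by
              unfold av
              have e3 : ∀ s : ℝ, g 0 (ev ω) (B ω) (idF d ω (NB.dl 0)) (id s) =
                  B ω (idF d ω (NB.dl 0)) := by
                intro s
                show ph 0 s • (ev ω).U (-s) (B ω ((ev ω).U s (idF d ω (NB.dl 0)))) = _
                have e4 : ph 0 s = 1 := by
                  unfold ph
                  simp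
                rw [e4, one_smul, cB, ← (ev ω).add', neg_add_cancel, (ev ω).zero']
              simp only [e3, intervalIntegral.integral_const, sub_zero]
              generalize B ω (idF d ω (NB.dl 0)) = v
              show (N : ℂ)⁻¹ • ((N : ℝ) • v) = v
              have e5 : ((N : ℝ) • v : L2 d) = (N : ℂ) • v := by
                rw [Nat.cast_smul_eq_nsmul ℝ, Nat.cast_smul_eq_nsmul ℂ]
              rw [e5, smul_smul, inv_mul_cancel₀ hNc, one_smul]
            rw [e1, e2]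
            module
          have h9 := h8.enorm
          rw [enorm_zero] at h9
          have h10 := ((ENNReal.continuous_pow 2).tendsto 0).comp h9
          simpa [Function.comp_def] using h10
      simpa using h5
    · exact van_fld0 hd hK hac hev hD hD' hμ hP idF_sym

theorem pcx0 (hd : 1 ≤ d) {K : ℝ} {ν : Measure ℝ} [IsProbabilityMeasure ν]
    (hK : ∀ᵐ r ∂ν, |r| ≤ K) (hac : ν ≪ volume)
    (hev : ∀ ω : NB.Site d → ℝ, NB.IsGrp (-1) (fun x => 2 * d + ω x) (ev ω))
    {A B : OF d} {M C : ℝ} (hM : 0 ≤ M) (hC : 0 ≤ C) (hA : Fld M A) (hA' : Fld M (adjF A))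
    (hB : Fld C B) (hB' : Fld C (adjF B))
    (cB : ∀ V t x, B V ((ev V).U t x) = (ev V).U t (B V x))
    (lB : ∀ᵐ V ∂(NB.PP d ν), ∀ x, Tendsto (fun N : ℕ => av 0 id (ev V) (A V) N x) atTop
        (𝓝 (B V x))) (x : NB.Site d) :
    PC (NB.PP d ν) (fun s ω => Hz ev (subF A B) s ω (idF d ω (NB.dl x))) (M + C) := by
  have h0 := pc00 hd hK hac hev hM hC hA hA' hB hB' cB lB
  have h1 := h0.push ((NB.t_RES d ν).2 x) (sO (-x)) (sO_iso (-x))
  have e : (fun (s : ℝ) (ω : NB.Site d → ℝ) => Hz ev (subF A B) s ω (idF d ω (NB.dl x))) =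
      fun s ω => sO (-x) (Yc ev (subF A B) (idF d) 0 s (fun y => ω (y + x))) := by
    funext s ω
    exact Hz_shift hev (hA.sub hB) idF_fld x s ω
  rw [e]
  exact h1

/-- **weak mixing for all states** -/
theorem main_all (hd : 1 ≤ d) {K : ℝ} {ν : Measure ℝ} [IsProbabilityMeasure ν]
    (hK : ∀ᵐ r ∂ν, |r| ≤ K) (hac : ν ≪ volume)
    (hev : ∀ ω : NB.Site d → ℝ, NB.IsGrp (-1) (fun x => 2 * d + ω x) (ev ω))
    {A : OF d} {M : ℝ} (hA : Fld M A) (hA' : Fld M (adjF A)) :
    ∃ (B : OF d) (C : ℝ), 0 ≤ C ∧ Fld C B ∧ Fld C (adjF B) ∧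
      (∀ V t x, B V ((ev V).U t x) = (ev V).U t (B V x)) ∧
      (∀ᵐ V ∂(NB.PP d ν), ∀ x, Tendsto (fun N : ℕ => av 0 id (ev V) (A V) N x) atTop
        (𝓝 (B V x))) ∧
      ∀ ψ : (NB.Site d → ℝ) → L2 d, MemLp ψ 2 (NB.PP d ν) →
        Wk (NB.PP d ν) (Hz ev (subF A B)) ψ ∧ Mn 0 (NB.PP d ν) (Hz ev (subF A B)) ψ ∧
          ∀ μ : ℝ, μ ≠ 0 → Mn μ (NB.PP d ν) (Hz ev A) ψ := by
  have hM : 0 ≤ M := hA.nonneg
  obtain ⟨B, C, hC, hB, hB', cB, lB⟩ := lim_gen (ν := ν) hev hA hA'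
  refine ⟨B, C, hC, hB, hB', cB, lB, fun ψ hψ => ?_⟩
  have hPψ : ∀ᵐ ω ∂(NB.PP d ν), idF d ω (ψ ω) = ψ ω := Eventually.of_forall fun ω => rfl
  have hP : Fld 1 (idF d) := idF_fld
  have hD : Fld (M + C) (subF A B) := hA.sub hB
  have hMC : 0 ≤ M + C := add_nonneg hM hC
  have hL := lo_Hz hev ν hMC hD
  have hLA := lo_Hz hev ν hM hA
  have hpc := pc00 hd hK hac hev hM hC hA hA' hB hB' cB lB
  refine ⟨(all_states hL hP hψ hPψ).1 fun x => wk_of_pc
    (pcx0 hd hK hac hev hM hC hA hA' hB hB' cB lB x),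
    (all_states hL hP hψ hPψ).2 0 fun x => mean_x hev ν hMC hD hP (hpc.mn 0) x,
    fun μ hμ => (all_states hLA hP hψ hPψ).2 μ fun x =>
      mean_x hev ν hM hA hP (van_fld0 hd hK hac hev hA hA' hμ hP idF_sym) x⟩

end wa

end Pool.Agent.H988.RS
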