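import Pool.Agent.H988.RS.Ope
import Pool.Graph.R_pool_sql_team_seeded_35f281b4.K7.H83.SI.Main

/-! # Operators commuting with a group which has a cyclic vector -/

set_option autoImplicit false
set_option linter.unusedSectionVars false

open MeasureTheory Filter Topology Set
open scoped ENNReal NNReal InnerProductSpace ComplexConjugate

namespace Pool.Agent.H988.RS

open Pool.Agent.K7.H83.SI Pool.Agent.H5R2.NB

section cyc

variable {X : Type} [NormedAddCommGroup X] [InnerProductSpace ℂ X] [CompleteSpace X]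

/-- the adjoint polynomial applied to a vector -/
noncomputable def TS (W : UG X) (u : X) (a : ℝ →₀ ℂ) : X :=
  ∑ t ∈ a.support, conj (a t) • W.U (-t) u

theorem TT_sum (W : UG X) (u : X) (a : ℝ →₀ ℂ) : TT' W u a = ∑ t ∈ a.support, a t • W.U t u := by
  unfold TT'
  rw [Finsupp.linearCombination_apply]
  rfl

theorem corr_eq (W : UG X) (u : X) (s t : ℝ) :
    ⟪W.U s u, W.U t u⟫_ℂ = ⟪u, W.U (t - s) u⟫_ℂ := by
  rw [ANTI.inner_adj, ← W.add']
  congr 2
  ring_nf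

/-- the symmetry of the cyclic representation -/
theorem TS_TT (W : UG X) (u : X) (a b : ℝ →₀ ℂ) (t : ℝ) :
    ⟪W.U t (TS W u a), TT' W u b⟫_ℂ = ⟪W.U t (TS W u b), TT' W u a⟫_ℂ := by
  rw [TT_sum, TT_sum]
  unfold TS
  simp only [map_sum, sum_inner, inner_sum, map_smul, inner_smul_left, inner_smul_right,
    Complex.conj_conj, Finset.mul_sum]
  rw [Finset.sum_comm]
  refine Finset.sum_congr rfl fun r _ => Finset.sum_congr rfl fun s _ => ?_
  rw [← W.add', ← W.add', corr_eq, corr_eq]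
  have e : r - (t + -s) = s - (t + -r) := by ring
  rw [e]
  ring

theorem TS_norm (W : UG X) (u : X) (a : ℝ →₀ ℂ) : ‖TS W u a‖ = ‖TT' W u a‖ := by
  have h : ⟪TS W u a, TS W u a⟫_ℂ = ⟪TT' W u a, TT' W u a⟫_ℂ := by
    rw [TT_sum]
    unfold TS
    simp only [sum_inner, inner_sum, inner_smul_left, inner_smul_right, Complex.conj_conj,
      Finset.mul_sum]
    rw [Finset.sum_comm]
    refine Finset.sum_congr rfl fun r _ => Finset.sum_congr rfl fun s _ => ?_
    rw [corr_eq, corr_eq]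
    have e : -s - -r = r - s := by ring
    rw [e]
    ring
  rw [inner_self_eq_norm_sq_to_K, inner_self_eq_norm_sq_to_K] at h
  have h2 : ‖TS W u a‖ ^ 2 = ‖TT' W u a‖ ^ 2 := by exact_mod_cast h
  exact (sq_eq_sq₀ (norm_nonneg _) (norm_nonneg _)).1 h2

theorem TS_sub (W : UG X) (u : X) (a b : ℝ →₀ ℂ) : TS W u (a - b) = TS W u a - TS W u b := by
  have h : ∀ a : ℝ →₀ ℂ, TS W u a = a.sum fun t c => conj c • W.U (-t) u := fun a => rfl
  rw [h, h, h]
  refine Finsupp.sum_sub_index fun t c c' => ?_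
  rw [map_sub, sub_smul]

/-- moving a polynomial to the other side -/
theorem TS_move (W : UG X) (x y : X) (a : ℝ →₀ ℂ) :
    ⟪x, TT' W y a⟫_ℂ = ⟪TS W x a, y⟫_ℂ := by
  rw [TT_sum]
  unfold TS
  simp only [sum_inner, inner_sum, inner_smul_left, inner_smul_right, Complex.conj_conj]
  refine Finset.sum_congr rfl fun s _ => ?_
  rw [ANTI.inner_adj, neg_neg]

theorem TT_comm {W : UG X} {B : X →L[ℂ] X} (hB : ∀ t u, B (W.U t u) = W.U t (B u)) (u : X)
    (a : ℝ →₀ ℂ) : B (TT' W u a) = TT' W (B u) a := by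
  rw [TT_sum, TT_sum, map_sum]
  refine Finset.sum_congr rfl fun t _ => ?_
  rw [map_smul, hB]

theorem TS_U (W : UG X) (u : X) (a : ℝ →₀ ℂ) (t : ℝ) : TS W (W.U t u) a = W.U t (TS W u a) := by
  unfold TS
  rw [map_sum]
  refine Finset.sum_congr rfl fun s _ => ?_
  rw [map_smul, ← W.add', ← W.add', add_comm]

theorem exists_seq {W : UG X} {u v : X} (hv : v ∈ cyc W u) :
    ∃ a : ℕ → (ℝ →₀ ℂ), Tendsto (fun n => TT' W u (a n)) atTop (𝓝 v) := by
  have h1 : v ∈ closure (Set.range (TT' W u)) := by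
    have h2 : (LinearMap.range (TT' W u)).topologicalClosure = cyc W u := by
      unfold TT'
      rw [Finsupp.range_linearCombination]
      rfl
    have h3 : v ∈ (LinearMap.range (TT' W u)).topologicalClosure := by
      rw [h2]
      exact hv
    exact h3
  obtain ⟨y, hy, hyv⟩ := mem_closure_iff_seq_limit.1 h1
  choose a ha using hy
  refine ⟨a, ?_⟩
  simp only [ha]
  exact hyv

/-- **operators commuting with the group commute on a cyclic subspace** -/
theorem comm_cyc {W : UG X} {B T : X →L[ℂ] X} (hB : ∀ t u, B (W.U t u) = W.U t (B u))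
    (hT : ∀ t u, T (W.U t u) = W.U t (T u)) {ψ : X} (h1 : B ψ ∈ cyc W ψ) (h2 : T ψ ∈ cyc W ψ)
    (t : ℝ) : ⟪W.U t ψ, B (T ψ)⟫_ℂ = ⟪W.U t ψ, T (B ψ)⟫_ℂ := by
  obtain ⟨a, ha⟩ := exists_seq h2
  obtain ⟨b, hb⟩ := exists_seq h1
  -- the limits of the adjoint polynomials
  have hcs : ∀ {a : ℕ → (ℝ →₀ ℂ)} {v : X}, Tendsto (fun n => TT' W ψ (a n)) atTop (𝓝 v) →
      ∃ ξ, Tendsto (fun n => TS W ψ (a n)) atTop (𝓝 ξ) := by
    intro a v hv
    have h3 := hv.cauchySeq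
    have h4 : CauchySeq fun n => TS W ψ (a n) := by
      rw [Metric.cauchySeq_iff] at h3 ⊢
      intro ε hε
      obtain ⟨N, hN⟩ := h3 ε hε
      refine ⟨N, fun p hp q hq => ?_⟩
      have h5 := hN p hp q hq
      rw [dist_eq_norm, ← map_sub] at h5
      rw [dist_eq_norm, ← TS_sub, TS_norm]
      exact h5
    exact cauchySeq_tendsto_of_complete h4
  obtain ⟨ξ, hξ⟩ := hcs ha
  obtain ⟨η, hη⟩ := hcs hb
  -- both sides
  have e1 : ∀ n, ⟪W.U t ψ, B (TT' W ψ (a n))⟫_ℂ = ⟪W.U t (TS W ψ (a n)), B ψ⟫_ℂ := by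
    intro n
    rw [TT_comm hB, TS_move, TS_U]
  have e2 : ∀ n, ⟪W.U t ψ, T (TT' W ψ (b n))⟫_ℂ = ⟪W.U t (TS W ψ (b n)), T ψ⟫_ℂ := by
    intro n
    rw [TT_comm hT, TS_move, TS_U]
  have f1 : ⟪W.U t ψ, B (T ψ)⟫_ℂ = ⟪W.U t ξ, B ψ⟫_ℂ := by
    have g1 : Tendsto (fun n => ⟪W.U t ψ, B (TT' W ψ (a n))⟫_ℂ) atTop
        (𝓝 (⟪W.U t ψ, B (T ψ)⟫_ℂ)) :=
      tendsto_const_nhds.inner ((B.continuous.tendsto _).comp ha)
    have g2 : Tendsto (fun n => ⟪W.U t (TS W ψ (a n)), B ψ⟫_ℂ) atTop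
        (𝓝 (⟪W.U t ξ, B ψ⟫_ℂ)) :=
      (((W.U t).continuous.tendsto _).comp hξ).inner tendsto_const_nhds
    exact tendsto_nhds_unique g1 (g2.congr fun n => (e1 n).symm)
  have f2 : ⟪W.U t ψ, T (B ψ)⟫_ℂ = ⟪W.U t η, T ψ⟫_ℂ := by
    have g1 : Tendsto (fun n => ⟪W.U t ψ, T (TT' W ψ (b n))⟫_ℂ) atTop
        (𝓝 (⟪W.U t ψ, T (B ψ)⟫_ℂ)) :=
      tendsto_const_nhds.inner ((T.continuous.tendsto _).comp hb)
    have g2 : Tendsto (fun n => ⟪W.U t (TS W ψ (b n)), T ψ⟫_ℂ) atTop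
        (𝓝 (⟪W.U t η, T ψ⟫_ℂ)) :=
      (((W.U t).continuous.tendsto _).comp hη).inner tendsto_const_nhds
    exact tendsto_nhds_unique g1 (g2.congr fun n => (e2 n).symm)
  rw [f1, f2]
  -- the diagonal limit
  have g1 : Tendsto (fun n => ⟪W.U t (TS W ψ (a n)), TT' W ψ (b n)⟫_ℂ) atTop
      (𝓝 (⟪W.U t ξ, B ψ⟫_ℂ)) := (((W.U t).continuous.tendsto _).comp hξ).inner hb
  have g2 : Tendsto (fun n => ⟪W.U t (TS W ψ (b n)), TT' W ψ (a n)⟫_ℂ) atTop
      (𝓝 (⟪W.U t η, T ψ⟫_ℂ)) := (((W.U t).continuous.tendsto _).comp hη).inner ha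
  exact tendsto_nhds_unique g1 (g2.congr fun n => TS_TT W ψ (b n) (a n) t)

/-- commuting operators preserve the singular vectors -/
theorem adj_comm {W : UG X} {B : X →L[ℂ] X} (hB : ∀ t u, B (W.U t u) = W.U t (B u)) (t : ℝ)
    (u : X) : ContinuousLinearMap.adjoint B (W.U t u) = W.U t (ContinuousLinearMap.adjoint B u) := by
  refine ext_inner_left ℂ fun w => ?_
  rw [ContinuousLinearMap.adjoint_inner_right, ← neg_neg t, ← ANTI.inner_adj, ← ANTI.inner_adj,
    ContinuousLinearMap.adjoint_inner_right, hB]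

theorem ac_comm {W : UG X} {B : X →L[ℂ] X} (hB : ∀ t u, B (W.U t u) = W.U t (B u)) {u : X}
    (hu : sm W u ≪ volume) : sm W (B u) ≪ volume := by
  refine Measure.AbsolutelyContinuous.mk fun s hs hs0 => ?_
  exact nul_inter hB hs (hu hs0)

/-- the singular subspace -/
noncomputable def sg (W : UG X) : Submodule ℂ X := orthP fun ψ => sm W ψ ≪ volume

theorem sg_closed (W : UG X) : IsClosed (sg W : Set X) := orthP_closed _

theorem sg_sing {W : UG X} {u : X} (hu : u ∈ sg W) : sm W u ⟂ₘ volume :=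
  sing_of_orth fun w hw => hu w hw

theorem sg_of {W : UG X} {u : X} (hu : sm W u ⟂ₘ volume) : u ∈ sg W := by
  intro ψ hψ
  obtain ⟨S, hS, h1, h2⟩ := hu
  have h3 : ψ ∈ nul W Sᶜ := mem_nul.2 (hψ h2)
  exact orth_of_nul (B := Sᶜ) h3 (by rw [compl_compl]; exact mem_nul.2 h1)

theorem sg_comm {W : UG X} {B : X →L[ℂ] X} (hB : ∀ t u, B (W.U t u) = W.U t (B u)) {u : X}
    (hu : u ∈ sg W) : B u ∈ sg W := by
  intro ψ hψ
  rw [← ContinuousLinearMap.adjoint_inner_left]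
  exact hu _ (ac_comm (adj_comm hB) hψ)

theorem sg_inv (W : UG X) (t : ℝ) (u : X) (hu : u ∈ sg W) : W.U t u ∈ sg W := by
  refine orthP_inv (fun s ψ hψ => ?_) t u hu
  show sm W (W.U s ψ) ≪ volume
  rw [sm_U]
  exact hψ

end cyc

variable {d : ℕ} {W : UG (L2 (Site d))}

/-- the cyclic vector of the singular subspace -/
theorem sg_cyclic (hW : ∀ x : Site d, ∀ φ : L2 (Site d),
      (∀ t, ⟪φ, W.U t (dl x)⟫_ℂ = 0) → sm W φ (bl W x) = 0) :
    ∃ ψ ∈ sg W, sg W ≤ cyc W ψ := by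
  refine cyclic_fix (V := fun _ => 0) (J := Set.univ) (fun x _ φ hφ => hW x φ hφ) (sg_closed W)
    (sg_inv W) (fun u hu => sg_sing hu) fun u _ => ?_
  have h1 : (Submodule.span ℂ (Set.range (dl (d := d)))) ≤ Submodule.span ℂ
      {y : L2 (Site d) | ∃ x ∈ {x : Site d | (fun _ : Site d => (0 : ℝ)) x ∈ Set.univ},
        ∃ t : ℝ, y = W.U t (dl x)} := by
    rw [Submodule.span_le]
    rintro _ ⟨y, rfl⟩
    refine Submodule.subset_span ⟨y, Set.mem_univ _, 0, ?_⟩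
    rw [W.zero']
  exact closure_mono h1 (LIMB.dl_dense d u)

/-- **the bicommutant** -/
theorem bicomm (hW : ∀ x : Site d, ∀ φ : L2 (Site d),
      (∀ t, ⟪φ, W.U t (dl x)⟫_ℂ = 0) → sm W φ (bl W x) = 0)
    {B T : L2 (Site d) →L[ℂ] L2 (Site d)} (hB : ∀ t u, B (W.U t u) = W.U t (B u))
    (hT : ∀ t u, T (W.U t u) = W.U t (T u))
    (hac : ∀ u, sm W u ≪ volume → B (T u) = T (B u)) (u : L2 (Site d)) : B (T u) = T (B u) := by
  obtain ⟨ψ, hψ, hc⟩ := sg_cyclic hW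
  set D : L2 (Site d) →L[ℂ] L2 (Site d) := B ∘L T - T ∘L B with hD
  have hDa : ∀ v, D v = B (T v) - T (B v) := fun v => rfl
  have hDU : ∀ t v, D (W.U t v) = W.U t (D v) := by
    intro t v
    rw [hDa, hDa, hT, hB, hB, hT, map_sub]
  -- on the cyclic vector
  have h1 : D ψ = 0 := by
    have h2 : D ψ ∈ cyc W ψ := by
      rw [hDa]
      exact (cyc W ψ).sub_mem (hc (sg_comm hB (sg_comm hT hψ))) (hc (sg_comm hT (sg_comm hB hψ)))
    have h3 : ∀ t, ⟪D ψ, W.U t ψ⟫_ℂ = 0 := by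
      intro t
      have h4 := comm_cyc hB hT (hc (sg_comm hB hψ)) (hc (sg_comm hT hψ)) t
      rw [← inner_conj_symm, hDa, inner_sub_right, h4, sub_self, map_zero]
    exact inner_self_eq_zero.1 (orth_cyc h3 h2)
  have h2 : ∀ v ∈ cyc W ψ, D v = 0 := by
    have h3 : cyc W ψ ≤ LinearMap.ker D.toLinearMap := by
      refine cyc_le D.isClosed_ker fun t => ?_
      show D (W.U t ψ) = 0
      rw [hDU, h1, map_zero]
    exact fun v hv => h3 hv
  have h3 : ∀ x : Site d, D (dl x) = 0 := by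
    intro x
    obtain ⟨w, -, hw1, hw2⟩ := exists_split W (dl x) (bl_meas W x)
    have h4 : D w = 0 := by
      refine h2 w (hc (sg_of ⟨(bl W x)ᶜ, (bl_meas W x).compl, ?_, ?_⟩))
      · exact mem_nul.1 (nul_of_restrict (bl_meas W x) hw1)
      · rw [compl_compl]
        exact bl_null W x
    have h5 : D (dl x - w) = 0 := by
      rw [hDa, hac, sub_self]
      rw [hw2]
      exact bl_ac W x
    rw [map_sub, h4, sub_zero] at h5
    exact h5
  have h4 : closure (Submodule.span ℂ (Set.range (dl (d := d))) : Set (L2 (Site d))) ⊆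
      LinearMap.ker D.toLinearMap := by
    refine closure_minimal ?_ D.isClosed_ker
    have h5 : Submodule.span ℂ (Set.range (dl (d := d))) ≤ LinearMap.ker D.toLinearMap := by
      rw [Submodule.span_le]
      rintro _ ⟨y, rfl⟩
      exact h3 y
    exact h5
  have h5 : D u = 0 := h4 (LIMB.dl_dense d u)
  rw [hDa] at h5
  exact sub_eq_zero.1 h5

end Pool.Agent.H988.RS
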