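import Pool.Agent.H988.RS.Nn

/-! # Spectral averaging over the potential at one site -/

set_option autoImplicit false

open MeasureTheory Filter Topology Set ProbabilityTheory
open scoped ENNReal NNReal InnerProductSpace ComplexConjugate

namespace Pool.Agent.H988.RS

open Pool.Agent.K7.H83.SI Pool.Agent.H5R2.NB

/-- the integral of the imaginary parts over all perturbations -/
theorem lint_inv {w : ℂ} (hw : 0 < w.re) {g : ℝ → ℂ}
    (hg : ∀ κ : ℝ, g κ = w - (Complex.I * (κ : ℂ)) * (g κ * w)) :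
    ∫⁻ κ : ℝ, ENNReal.ofReal (g κ).re = ENNReal.ofReal Real.pi := by
  have hw0 : w ≠ 0 := by
    intro h
    rw [h] at hw
    simp at hw
  set p : ℝ := (w⁻¹).re with hp
  set q : ℝ := (w⁻¹).im with hq
  have hp0 : 0 < p := by
    rw [hp, Complex.inv_re]
    exact div_pos hw (Complex.normSq_pos.2 hw0)
  have h1 : ∀ κ : ℝ, (g κ).re = Real.pi * cauchyPDFReal (-q) p.toNNReal κ := by
    intro κ
    have h2 : g κ * (w⁻¹ + Complex.I * κ) = 1 := by
      have h3 : g κ * (1 + Complex.I * κ * w) = w := by linear_combination hg κ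
      have h4 : (w⁻¹ + Complex.I * κ) * w = 1 + Complex.I * κ * w := by
        rw [add_mul, inv_mul_cancel₀ hw0]
      have h5 : (g κ * (w⁻¹ + Complex.I * κ)) * w = 1 * w := by
        rw [mul_assoc, h4, h3, one_mul]
      exact mul_right_cancel₀ hw0 h5
    have h3 : g κ = (w⁻¹ + Complex.I * κ)⁻¹ := eq_inv_of_mul_eq_one_left h2
    have e1 : (w⁻¹ + Complex.I * κ).re = p := by simp [hp]
    have e2 : (w⁻¹ + Complex.I * κ).im = q + κ := by simp [hq]
    rw [h3, Complex.inv_re, Complex.normSq_apply, e1, e2, cauchyPDFReal_def]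
    have h4 : 0 < (κ - -q) ^ 2 + p ^ 2 := by positivity
    have h5 : 0 < p * p + (q + κ) * (q + κ) := by nlinarith [mul_self_nonneg (q + κ)]
    rw [Real.coe_toNNReal p hp0.le, div_eq_mul_inv, mul_assoc, ← mul_assoc Real.pi, mul_inv_cancel₀ Real.pi_ne_zero,
      one_mul]
    congr 2
    ring
  have h2 : ∀ κ : ℝ, ENNReal.ofReal (g κ).re =
      ENNReal.ofReal Real.pi * cauchyPDF (-q) p.toNNReal κ := by
    intro κ
    rw [h1, ENNReal.ofReal_mul Real.pi_pos.le]
    rfl
  simp only [h2]
  rw [lintegral_const_mul _ (measurable_cauchyPDF _ _), lintegral_cauchyPDF_eq_one, mul_one]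
  rw [Ne, Real.toNNReal_eq_zero]
  exact not_le.2 hp0

/-- the measure of an interval through the Poisson integral -/
theorem ball_le {m : Measure ℝ} [IsFiniteMeasure m] {a : ℝ → ℂ}
    (ha : ∀ t : ℝ, a t = ∫ E : ℝ, Complex.exp (-(Complex.I * t * E)) ∂m) (x : ℝ) {r : ℝ}
    (hr : 0 < r) : ENNReal.ofReal (1 / 2) * m (Metric.closedBall x r) ≤
      ∫⁻ E in Metric.closedBall x r, ENNReal.ofReal (Pool.Agent.K7.H83.SI.LT a E (2 * r)).re := by
  have hε : 0 < 2 * r := by positivity
  have hb : ∀ E E' : ℝ, 0 ≤ 2 * r / ((2 * r) ^ 2 + (E - E') ^ 2) := fun E E' => by positivity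
  have hi : ∀ E : ℝ, Integrable (fun E' : ℝ => 2 * r / ((2 * r) ^ 2 + (E - E') ^ 2)) m := by
    intro E
    refine Integrable.of_bound (C := (2 * r)⁻¹) ?_ (Eventually.of_forall fun E' => ?_)
    · exact (by fun_prop : Measurable fun E' : ℝ =>
        2 * r / ((2 * r) ^ 2 + (E - E') ^ 2)).aestronglyMeasurable
    · rw [Real.norm_of_nonneg (hb E E'), div_le_iff₀ (by positivity), inv_mul_eq_div,
        le_div_iff₀ hε]
      nlinarith [sq_nonneg (E - E')]
  have h1 : ∀ E : ℝ, ENNReal.ofReal (Pool.Agent.K7.H83.SI.LT a E (2 * r)).re =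
      ∫⁻ E', ENNReal.ofReal (2 * r / ((2 * r) ^ 2 + (E - E') ^ 2)) ∂m := by
    intro E
    rw [LT_re ha E hε, ofReal_integral_eq_lintegral_ofReal (hi E)
      (Eventually.of_forall fun E' => hb E E')]
  simp only [h1]
  rw [lintegral_lintegral_swap (by fun_prop)]
  have hI : MeasurableSet (Metric.closedBall x r) := Metric.isClosed_closedBall.measurableSet
  calc ENNReal.ofReal (1 / 2) * m (Metric.closedBall x r)
      = ∫⁻ _E' in Metric.closedBall x r, ENNReal.ofReal (1 / 2) ∂m := by
        rw [setLIntegral_const]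
    _ ≤ ∫⁻ E' in Metric.closedBall x r, (∫⁻ E in Metric.closedBall x r,
          ENNReal.ofReal (2 * r / ((2 * r) ^ 2 + (E - E') ^ 2))) ∂m := by
        refine setLIntegral_mono' hI fun E' hE' => ?_
        calc ENNReal.ofReal (1 / 2) = ENNReal.ofReal (1 / (4 * r)) * ENNReal.ofReal (2 * r) := by
              rw [← ENNReal.ofReal_mul (by positivity)]
              congr 1
              field_simp
              norm_num
          _ = ∫⁻ _E in Metric.closedBall x r, ENNReal.ofReal (1 / (4 * r)) := by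
              rw [setLIntegral_const, Real.volume_closedBall]
          _ ≤ _ := by
              refine setLIntegral_mono' hI fun E hE => ENNReal.ofReal_le_ofReal ?_
              rw [Metric.mem_closedBall, Real.dist_eq] at hE hE'
              have h2 : |E - E'| ≤ 2 * r := by
                have e : E - E' = (E - x) - (E' - x) := by ring
                rw [e]
                exact (abs_sub _ _).trans (by linarith)
              have h3 : (E - E') ^ 2 ≤ (2 * r) ^ 2 := by
                rw [← sq_abs (E - E')]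
                exact pow_le_pow_left₀ (abs_nonneg _) h2 2
              rw [div_le_div_iff₀ (by positivity) (by positivity)]
              nlinarith
    _ ≤ ∫⁻ E', (∫⁻ E in Metric.closedBall x r,
          ENNReal.ofReal (2 * r / ((2 * r) ^ 2 + (E - E') ^ 2))) ∂m :=
        setLIntegral_le_lintegral _ _

variable {d : ℕ}

theorem upd_cont (x : Site d) (V : Site d → ℝ) :
    Continuous fun p : ℝ × ℝ => (Function.update V x p.1, p.2) := by
  have h : Continuous fun p : ℝ × ℝ => Function.update V x p.1 :=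
    (continuous_const (y := V)).update x continuous_fst
  exact h.prodMk continuous_snd

theorem corr_ne (W : UG (L2 (Site d))) (x : Site d) : sm W (dl x) ≠ 0 := by
  intro h
  have h1 := (sm_prob W x).measure_univ
  rw [h] at h1
  simp at h1

/-- the correlation function as a function of the potential at one site -/
noncomputable def co (ev : (Site d → ℝ) → UG (L2 (Site d))) (x : Site d) (V : Site d → ℝ)
    (κ t : ℝ) : ℂ := ⟪dl x, (ev (Function.update V x κ)).U t (dl x)⟫_ℂ

section avg

variable {c : ℝ} {ev : (Site d → ℝ) → UG (L2 (Site d))}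

theorem co_cont (hev : ∀ V, IsGrp c V (ev V)) (x : Site d) (V : Site d → ℝ) :
    Continuous fun p : ℝ × ℝ => co ev x V p.1 p.2 := by
  have h := (corr_cont hev x).comp (upd_cont x V)
  exact h

theorem co_cont1 (ev : (Site d → ℝ) → UG (L2 (Site d))) (x : Site d) (V : Site d → ℝ) (κ : ℝ) :
    Continuous (co ev x V κ) := by
  have h : Continuous fun t => ⟪dl x, (ev (Function.update V x κ)).U t (dl x)⟫_ℂ :=
    continuous_const.inner ((ev _).cont' (dl x))
  exact h

theorem co_bd (ev : (Site d → ℝ) → UG (L2 (Site d))) (x : Site d) (V : Site d → ℝ) (κ t : ℝ) :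
    ‖co ev x V κ t‖ ≤ 1 := corr_bd _ x t

theorem co_F (ev : (Site d → ℝ) → UG (L2 (Site d))) (x : Site d) (V : Site d → ℝ) (κ t : ℝ) :
    co ev x V κ t = ∫ E : ℝ, Complex.exp (-(Complex.I * t * E))
      ∂(sm (ev (Function.update V x κ)) (dl x)) := sm_inner _ _ t

theorem co_pos (x : Site d) (V : Site d → ℝ) (E : ℝ) {ε : ℝ} (hε : 0 < ε) :
    0 < (Pool.Agent.K7.H83.SI.LT (co ev x V 0) E ε).re := by
  rw [LT_eq (co_F ev x V 0) E hε]
  exact Lz_re_pos (corr_ne _ x) (by simp [hε])

theorem co_int (hev : ∀ V, IsGrp c V (ev V)) (x : Site d) (V : Site d → ℝ) (E : ℝ) {ε : ℝ}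
    (hε : 0 < ε) :
    ∫⁻ κ : ℝ, ENNReal.ofReal (Pool.Agent.K7.H83.SI.LT (co ev x V κ) E ε).re =
      ENNReal.ofReal Real.pi := by
  refine lint_inv (co_pos (ev := ev) x V E hε) fun κ => ?_
  have h1 := LT_volterra (a := co ev x V 0) (b := co ev x V κ) (C := 1)
    (c := Complex.I * ((κ - 0 : ℝ) : ℂ)) (co_cont1 ev x V 0) (co_cont1 ev x V κ)
    (co_bd ev x V 0) (co_bd ev x V κ) (volt hev x V 0 κ) E hε
  rw [sub_zero] at h1
  exact h1

theorem co_meas (hev : ∀ V, IsGrp c V (ev V)) (x : Site d) (V : Site d → ℝ) {ε : ℝ} (hε : 0 < ε) :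
    Measurable fun p : ℝ × ℝ =>
      ENNReal.ofReal (Pool.Agent.K7.H83.SI.LT (co ev x V p.1) p.2 ε).re := by
  have h2 := LT_cont (co_cont hev x V) (co_bd ev x V) hε
  exact (Complex.continuous_re.comp h2).measurable.ennreal_ofReal

theorem sm_upd (hev : ∀ V, IsGrp c V (ev V)) (x : Site d) (V : Site d → ℝ) :
    Measurable fun κ : ℝ => sm (ev (Function.update V x κ)) (dl x) := by
  have h1 : Measurable fun κ : ℝ => (V, κ) := by fun_prop
  exact (sm_measurable hev x).comp ((upd_meas x).comp h1)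

/-- the averaged measures of intervals -/
theorem avg_ball (hev : ∀ V, IsGrp c V (ev V)) (x : Site d) (V : Site d → ℝ) (n : ℕ) (y : ℝ)
    {r : ℝ} (hr : 0 < r) :
    ∫⁻ κ in Icc (-(n : ℝ)) n, sm (ev (Function.update V x κ)) (dl x) (Metric.closedBall y r) ≤
      ((2 * Real.pi).toNNReal • (volume : Measure ℝ)) (Metric.closedBall y r) := by
  have hI : MeasurableSet (Metric.closedBall y r) := Metric.isClosed_closedBall.measurableSet
  have h1 : ENNReal.ofReal (1 / 2) * (∫⁻ κ in Icc (-(n : ℝ)) n,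
      sm (ev (Function.update V x κ)) (dl x) (Metric.closedBall y r)) ≤
      ENNReal.ofReal Real.pi * volume (Metric.closedBall y r) := by
    calc ENNReal.ofReal (1 / 2) * (∫⁻ κ in Icc (-(n : ℝ)) n,
          sm (ev (Function.update V x κ)) (dl x) (Metric.closedBall y r))
        = ∫⁻ κ in Icc (-(n : ℝ)) n, ENNReal.ofReal (1 / 2) *
            sm (ev (Function.update V x κ)) (dl x) (Metric.closedBall y r) := by
          rw [lintegral_const_mul' _ _ ENNReal.ofReal_ne_top]
      _ ≤ ∫⁻ κ in Icc (-(n : ℝ)) n, ∫⁻ E in Metric.closedBall y r,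
            ENNReal.ofReal (Pool.Agent.K7.H83.SI.LT (co ev x V κ) E (2 * r)).re :=
          lintegral_mono fun κ => ball_le (co_F ev x V κ) y hr
      _ = ∫⁻ E in Metric.closedBall y r, ∫⁻ κ in Icc (-(n : ℝ)) n,
            ENNReal.ofReal (Pool.Agent.K7.H83.SI.LT (co ev x V κ) E (2 * r)).re := by
          exact lintegral_lintegral_swap (co_meas hev x V (by positivity)).aemeasurable
      _ ≤ ∫⁻ _E in Metric.closedBall y r, ENNReal.ofReal Real.pi := by
          refine lintegral_mono fun E => ?_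
          rw [← co_int hev x V E (ε := 2 * r) (by positivity)]
          exact setLIntegral_le_lintegral _ _
      _ = ENNReal.ofReal Real.pi * volume (Metric.closedBall y r) := by
          rw [setLIntegral_const]
  have h2 : (2 : ℝ≥0∞) * ENNReal.ofReal (1 / 2) = 1 := by
    rw [show (2 : ℝ≥0∞) = ENNReal.ofReal 2 by simp, ← ENNReal.ofReal_mul (by norm_num)]
    norm_num
  set X := ∫⁻ κ in Icc (-(n : ℝ)) n,
      sm (ev (Function.update V x κ)) (dl x) (Metric.closedBall y r)
  calc X = 2 * (ENNReal.ofReal (1 / 2) * X) := by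
        rw [← mul_assoc, h2, one_mul]
    _ ≤ 2 * (ENNReal.ofReal Real.pi * volume (Metric.closedBall y r)) := by gcongr
    _ = ((2 * Real.pi).toNNReal • (volume : Measure ℝ)) (Metric.closedBall y r) := by
        rw [Measure.smul_apply, ENNReal.smul_def, smul_eq_mul, ← mul_assoc]
        congr 1
        rw [show (2 : ℝ≥0∞) = ENNReal.ofReal 2 by simp, ← ENNReal.ofReal_mul (by norm_num)]
        rfl

theorem avg_fin (hev : ∀ V, IsGrp c V (ev V)) (x : Site d) (V : Site d → ℝ) {N : Set ℝ}
    (hN : MeasurableSet N) (h0 : volume N = 0) (n : ℕ) :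
    ∀ᵐ κ ∂(volume.restrict (Icc (-(n : ℝ)) n)),
      sm (ev (Function.update V x κ)) (dl x) N = 0 := by
  have hsm := sm_upd hev x V
  set ρ : Measure ℝ := Measure.bind (volume.restrict (Icc (-(n : ℝ)) n))
    (fun κ : ℝ => sm (ev (Function.update V x κ)) (dl x)) with hρ
  have hρa : ∀ s : Set ℝ, MeasurableSet s → ρ s =
      ∫⁻ κ in Icc (-(n : ℝ)) n, sm (ev (Function.update V x κ)) (dl x) s := fun s hs =>
    Measure.bind_apply hs hsm.aemeasurable
  have hfin : IsFiniteMeasure ρ := by
    refine ⟨?_⟩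
    rw [hρa univ MeasurableSet.univ]
    have h1 : ∀ κ : ℝ, sm (ev (Function.update V x κ)) (dl x) univ = 1 := fun κ =>
      (sm_prob _ x).measure_univ
    simp only [h1]
    rw [setLIntegral_const, one_mul]
    exact measure_Icc_lt_top
  have hle : ∀ (y r : ℝ), 0 < r → ρ (Metric.closedBall y r) ≤
      ((2 * Real.pi).toNNReal • (volume : Measure ℝ)) (Metric.closedBall y r) := by
    intro y r hr
    rw [hρa _ Metric.isClosed_closedBall.measurableSet]
    exact avg_ball hev x V n y hr
  have h3 : ρ N ≤ ((2 * Real.pi).toNNReal • (volume : Measure ℝ)) N := by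
    refine (Besicovitch.vitaliFamily ρ).measure_le_of_frequently_le _
      Measure.AbsolutelyContinuous.rfl N fun y _ => ?_
    have h4 := Besicovitch.tendsto_filterAt ρ y
    refine h4.frequently (Eventually.frequently ?_)
    filter_upwards [self_mem_nhdsWithin] with r hr
    exact hle y r hr
  rw [Measure.smul_apply, h0, smul_zero, nonpos_iff_eq_zero, hρa N hN] at h3
  have hm : Measurable fun κ : ℝ => sm (ev (Function.update V x κ)) (dl x) N :=
    (Measure.measurable_coe hN).comp hsm
  exact (lintegral_eq_zero_iff hm).1 h3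

/-- **spectral averaging** -/
theorem spec_avg (hev : ∀ V, IsGrp c V (ev V)) (x : Site d) (V : Site d → ℝ) {N : Set ℝ}
    (hN : MeasurableSet N) (h0 : volume N = 0) :
    ∀ᵐ κ : ℝ, sm (ev (Function.update V x κ)) (dl x) N = 0 := by
  have h5 : ∀ n : ℕ, ∀ᵐ κ : ℝ, κ ∈ Icc (-(n : ℝ)) n →
      sm (ev (Function.update V x κ)) (dl x) N = 0 := fun n =>
    (ae_restrict_iff' measurableSet_Icc).1 (avg_fin hev x V hN h0 n)
  filter_upwards [ae_all_iff.2 h5] with κ hκ
  obtain ⟨n, hn⟩ := exists_nat_ge |κ|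
  exact hκ n (abs_le.1 hn)

end avg

end Pool.Agent.H988.RS
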