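import Pool.Agent.H988.RS.Tr

/-! # The random potential: translates of the blow up sets -/

set_option autoImplicit false

open MeasureTheory Filter Topology Set ProbabilityTheory
open scoped ENNReal NNReal InnerProductSpace ComplexConjugate

namespace Pool.Agent.H988.RS

open Pool.Agent.K7.H83.SI Pool.Agent.H5R2.NB

/-- the blow up set has Lebesgue measure zero -/
theorem AA_null {m : Measure ℝ} [IsFiniteMeasure m] {a : ℝ → ℂ}
    (hac : Continuous a) {C : ℝ} (hC : ∀ t, ‖a t‖ ≤ C)
    (ha : ∀ t : ℝ, a t = ∫ E : ℝ, Complex.exp (-(Complex.I * t * E)) ∂m) :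
    volume (AA a) = 0 := by
  by_contra hpos
  have hd : DifferentiableOn ℂ (fun z => (1 + Lz m z)⁻¹) {z | 0 < z.im} := by
    refine ((Lz_diff m).const_add 1).inv fun z hz => ?_
    exact one_add_ne (Lz_re_nonneg hz)
  have hη : ∀ n : ℕ, (0 : ℝ) < 1 / ((n : ℝ) + 1) := fun n => by positivity
  have hlim : ∀ x ∈ AA a, Tendsto (fun n : ℕ => (1 + Lz m (x + ((1 / ((n : ℝ) + 1) : ℝ) : ℂ) *
      Complex.I))⁻¹) atTop (𝓝 0) := by
    intro x hx
    have h1 : Tendsto (fun n : ℕ => ‖Pool.Agent.K7.H83.SI.LT a x (1 / ((n : ℝ) + 1))‖) atTop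
      atTop := hx
    rw [tendsto_zero_iff_norm_tendsto_zero]
    simp only [norm_inv]
    refine Tendsto.inv_tendsto_atTop ?_
    have h2 := tendsto_atTop_add_const_right atTop (-1 : ℝ) h1
    refine tendsto_atTop_mono (fun n => ?_) h2
    rw [LT_eq ha x (hη n)]
    have h3 := norm_sub_norm_le (Lz m (x + ((1 / ((n : ℝ) + 1) : ℝ) : ℂ) * Complex.I)) (-1 : ℂ)
    rw [norm_neg, norm_one] at h3
    refine h3.trans (le_of_eq ?_)
    congr 1
    ring
  have hI : 0 < Complex.I.im := by simp
  have h0 := fmr hd (fun z hz => inv_bd (Lz_re_nonneg hz)) hη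
    tendsto_one_div_add_atTop_nhds_zero_nat (AA_meas hac hC) hlim hpos hI
  exact one_add_ne (Lz_re_nonneg (m := m) hI) (inv_eq_zero.1 h0)

variable {d : ℕ}

theorem bl_null (W : UG (L2 (Site d))) (x : Site d) : volume (bl W x) = 0 :=
  AA_null (continuous_const.inner (W.cont' (dl x))) (corr_bd W x) fun t => sm_inner W (dl x) t

/-- the translate of the blow up set -/
def blt (W : UG (L2 (Site d))) (x : Site d) (lam : ℝ) : Set ℝ := {E | E - lam ∈ bl W x}

theorem blt_meas (W : UG (L2 (Site d))) (x : Site d) (lam : ℝ) : MeasurableSet (blt W x lam) := by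
  have hm : Measurable fun E : ℝ => E - lam := by fun_prop
  exact hm (bl_meas W x)

theorem blt_null (W : UG (L2 (Site d))) (x : Site d) (lam : ℝ) : volume (blt W x lam) = 0 := by
  have h := (measurePreserving_sub_right (volume : Measure ℝ) lam).measure_preimage
    (bl_meas W x).nullMeasurableSet
  rw [bl_null] at h
  exact h

section rand

variable {c : ℝ} {ev : (Site d → ℝ) → UG (L2 (Site d))}

theorem blt_joint (hev : ∀ V, IsGrp c V (ev V)) (x : Site d) (lam : ℝ) :
    MeasurableSet {p : (Site d → ℝ) × ℝ | p.2 ∈ blt (ev p.1) x lam} := by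
  have ht : MeasurableSet {p : (Site d → ℝ) × ℝ | p.2 ∈ bl (ev p.1) x} :=
    AA_joint (Y := Site d → ℝ) (a := fun V t => ⟪dl x, (ev V).U t (dl x)⟫_ℂ) (corr_cont hev x)
      (C := 1) (fun V t => corr_bd _ x t)
  have hm : Measurable fun p : (Site d → ℝ) × ℝ => (p.1, p.2 - lam) := by fun_prop
  exact hm ht

theorem bl_joint (hev : ∀ V, IsGrp c V (ev V)) (x : Site d) :
    MeasurableSet {p : (Site d → ℝ) × ℝ | p.2 ∈ bl (ev p.1) x} :=
  AA_joint (Y := Site d → ℝ) (a := fun V t => ⟪dl x, (ev V).U t (dl x)⟫_ℂ) (corr_cont hev x)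
    (C := 1) (fun V t => corr_bd _ x t)

/-- resampling one site -/
theorem ae_resample {ν : Measure ℝ} [IsProbabilityMeasure ν] (x : Site d)
    {Bad : Set (Site d → ℝ)} (hBm : MeasurableSet Bad)
    (h : ∀ V : Site d → ℝ, ν {κ : ℝ | Function.update V x κ ∈ Bad} = 0) :
    ∀ᵐ V ∂(PP d ν), V ∉ Bad := by
  refine measure_eq_zero_iff_ae_notMem.1 ?_
  have hres := resample x ν
  rw [← hres.measure_preimage hBm.nullMeasurableSet,
    Measure.measure_prod_null (hres.measurable hBm)]
  exact Eventually.of_forall fun V => h V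

/-- **the singular spectrum at a site is disjoint from its translate** -/
theorem diag_null (hev : ∀ V, IsGrp c V (ev V)) (ν : Measure ℝ) [IsProbabilityMeasure ν]
    (hν : ν ≪ volume) (x : Site d) {lam : ℝ} (hl : lam ≠ 0) :
    ∀ᵐ V ∂(PP d ν), sm (ev V) (dl x) (bl (ev V) x ∩ blt (ev V) x lam) = 0 := by
  let K : Kernel (Site d → ℝ) ℝ := ⟨fun V => sm (ev V) (dl x), sm_measurable hev x⟩
  have hK : IsMarkovKernel K := ⟨fun V => sm_prob _ x⟩
  have hm : Measurable fun V => sm (ev V) (dl x) (bl (ev V) x ∩ blt (ev V) x lam) :=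
    Kernel.measurable_kernel_prodMk_left (κ := K) ((bl_joint hev x).inter (blt_joint hev x lam))
  have hBm : MeasurableSet {V : Site d → ℝ |
      sm (ev V) (dl x) (bl (ev V) x ∩ blt (ev V) x lam) ≠ 0} :=
    hm (measurableSet_singleton (0 : ℝ≥0∞)).compl
  have h1 : ∀ᵐ V ∂(PP d ν), V ∉ {V : Site d → ℝ |
      sm (ev V) (dl x) (bl (ev V) x ∩ blt (ev V) x lam) ≠ 0} := by
    refine ae_resample x hBm fun V => ?_
    have hNm := NN_meas (co_cont1 ev x V 0) (co_bd ev x V 0) lam
    have hN0 := NN_null (corr_ne _ x) (co_cont1 ev x V 0) (co_bd ev x V 0) (co_F ev x V 0) hl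
    have h2 := hν.ae_le (spec_avg hev x V hNm hN0)
    refine measure_mono_null ?_ (ae_iff.1 h2)
    intro κ hκ
    have hκ' : sm (ev (Function.update V x κ)) (dl x) (bl (ev (Function.update V x κ)) x ∩
      blt (ev (Function.update V x κ)) x lam) ≠ 0 := hκ
    intro h3
    apply hκ'
    refine measure_mono_null ?_ h3
    rintro E ⟨hE1, hE2⟩
    refine AA_sub (a := co ev x V 0) (b := co ev x V κ) (C := 1)
      (c := Complex.I * ((κ - 0 : ℝ) : ℂ)) (co_cont1 ev x V 0) (co_cont1 ev x V κ)
      (co_bd ev x V 0) (co_bd ev x V κ) ?_ (volt hev x V 0 κ) hE1 hE2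
    intro h4
    have := congrArg Complex.re h4
    simp at this
  filter_upwards [h1] with V hV
  by_contra h2
  exact hV h2

/-- the translates of the blow up sets are not charged by the other sites -/
theorem bad_null' (hev : ∀ V, IsGrp c V (ev V)) (ν : Measure ℝ) [IsProbabilityMeasure ν]
    (hν : ν ≪ volume) (x y : Site d) (lam : ℝ) :
    ∀ᵐ V ∂(PP d ν), sm (ev (Function.update V x 0)) (dl y) (blt (ev V) x lam) = 0 := by
  have hu0 : Measurable fun V : Site d → ℝ => Function.update V x 0 :=
    (upd_meas x).comp (by fun_prop : Measurable fun V : Site d → ℝ => (V, (0 : ℝ)))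
  have hker : Measurable fun V => sm (ev (Function.update V x 0)) (dl y) :=
    (sm_measurable hev y).comp hu0
  let K : Kernel (Site d → ℝ) ℝ := ⟨fun V => sm (ev (Function.update V x 0)) (dl y), hker⟩
  have hK : IsMarkovKernel K := ⟨fun V => sm_prob _ y⟩
  have hm2 : Measurable fun V => sm (ev (Function.update V x 0)) (dl y) (blt (ev V) x lam) :=
    Kernel.measurable_kernel_prodMk_left (κ := K) (blt_joint hev x lam)
  have hBm : MeasurableSet {V : Site d → ℝ |
      sm (ev (Function.update V x 0)) (dl y) (blt (ev V) x lam) ≠ 0} :=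
    hm2 (measurableSet_singleton (0 : ℝ≥0∞)).compl
  have h1 : ∀ᵐ V ∂(PP d ν), V ∉ {V : Site d → ℝ |
      sm (ev (Function.update V x 0)) (dl y) (blt (ev V) x lam) ≠ 0} := by
    refine ae_resample x hBm fun V => ?_
    have hcount : {κ : ℝ | 0 < sm (ev (Function.update V x 0)) (dl y)
        (blt (ev (Function.update V x κ)) x lam)}.Countable := by
      refine Measure.countable_meas_pos_of_disjoint_iUnion
        (As := fun κ => blt (ev (Function.update V x κ)) x lam) (fun κ => blt_meas _ x lam) ?_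
      intro κ κ' hne
      have h2 := bl_disj hev x V hne
      have hd : Disjoint (blt (ev (Function.update V x κ)) x lam)
          (blt (ev (Function.update V x κ')) x lam) := by
        rw [Set.disjoint_left] at h2 ⊢
        intro E e1 e2
        exact h2 e1 e2
      exact hd
    refine hν (measure_mono_null ?_ (hcount.measure_zero volume))
    intro κ hκ
    have hκ' : sm (ev (Function.update (Function.update V x κ) x 0)) (dl y)
      (blt (ev (Function.update V x κ)) x lam) ≠ 0 := hκ
    rw [Function.update_idem] at hκ'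
    exact pos_iff_ne_zero.2 hκ'
  filter_upwards [h1] with V hV
  by_contra h2
  exact hV h2

/-- **vectors which are orthogonal to the cyclic subspace of `δ_x` do not charge the translate of
the blow up set** -/
theorem orth_null' (hev : ∀ V, IsGrp c V (ev V)) (ν : Measure ℝ) [IsProbabilityMeasure ν]
    (hν : ν ≪ volume) (lam : ℝ) :
    ∀ᵐ V ∂(PP d ν), ∀ x : Site d, ∀ φ : L2 (Site d),
      (∀ t, ⟪φ, (ev V).U t (dl x)⟫_ℂ = 0) → sm (ev V) φ (blt (ev V) x lam) = 0 := by
  have h : ∀ᵐ V ∂(PP d ν), ∀ x y : Site d,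
      sm (ev (Function.update V x 0)) (dl y) (blt (ev V) x lam) = 0 := by
    rw [ae_all_iff]
    intro x
    rw [ae_all_iff]
    intro y
    exact bad_null' hev ν hν x y lam
  filter_upwards [h] with V hV x φ hφ
  have h1 : ∀ t, (ev (Function.update V x 0)).U t φ = (ev V).U t φ := by
    refine Pool.Agent.K7.H96.NBT.orbit_eq (hev V) (hev _) fun z hz t => ?_
    have hzx : z = x := by
      by_contra hne
      exact hz (Function.update_of_ne hne _ _).symm
    rw [hzx, ← ANTI.dl_inner, ← inner_conj_symm, ANTI.inner_adj, hφ, map_zero]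
  have h2 : sm (ev V) φ = sm (ev (Function.update V x 0)) φ :=
    sm_ext_iff fun t => by rw [h1]
  rw [h2]
  have h3 : φ ∈ nul (ev (Function.update V x 0)) (blt (ev V) x lam) := by
    have h4 : closure (Submodule.span ℂ (Set.range (dl (d := d))) : Set (L2 (Site d))) ⊆
        nul (ev (Function.update V x 0)) (blt (ev V) x lam) := by
      refine closure_minimal ?_ (nul_closed _ _)
      have h5 : Submodule.span ℂ (Set.range (dl (d := d))) ≤
          nul (ev (Function.update V x 0)) (blt (ev V) x lam) := by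
        rw [Submodule.span_le]
        rintro _ ⟨y, rfl⟩
        exact hV x y
      exact h5
    exact h4 (LIMB.dl_dense d φ)
  exact h3

end rand

end Pool.Agent.H988.RS
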