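import Pool.Agent.H988.RS.Wa
import Pool.Agent.H988.RS.Cy
import Pool.Agent.H988.WM.Cor

/-! # Conserved fields, eigenoperators, and the velocity -/

set_option autoImplicit false
set_option linter.unusedSectionVars false

open MeasureTheory Filter Topology Set
open scoped ENNReal NNReal InnerProductSpace ComplexConjugate

namespace Pool.Agent.H988.RS

open Pool.Agent.TH980.IM Pool.Agent.H5R2
open Pool.Agent.Y662.ERG
open Pool.Agent.TH980.IM.PR
open Pool.Agent.R988.NQ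
open Pool.Agent.H988.WM

section fin

variable {d : ℕ} {ev : (NB.Site d → ℝ) → NB.UG (L2 d)}

theorem no_one {ν : Measure ℝ} (hac : ν ≪ volume) (r : ℝ) : ν {r} ≠ 1 := by
  rw [no_atom hac]
  exact zero_ne_one

/-- the sites do not charge the other blow up sets -/
theorem orth_off {c o : ℝ} {ev : (NB.Site d → ℝ) → NB.UG (L2 d)}
    (hev : ∀ ω : NB.Site d → ℝ, NB.IsGrp c (fun x => o + ω x) (ev ω))
    (ν : Measure ℝ) [IsProbabilityMeasure ν] (hν : ν ≪ volume) :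
    ∀ᵐ ω ∂(NB.PP d ν), ∀ x : NB.Site d, ∀ φ : L2 d,
      (∀ t, ⟪φ, (ev ω).U t (NB.dl x)⟫_ℂ = 0) →
        Pool.Agent.K7.H83.SI.sm (ev ω) φ (Pool.Agent.K7.H83.SI.bl (ev ω) x) = 0 := by
  refine ae_off ν o ?_
  have h := orth_null' (ev_off hev) (ν.map fun r : ℝ => o + r) (map_ac hν o) 0
  filter_upwards [h] with V hV x φ hφ
  have h1 := hV x φ hφ
  have e : blt (ev (shf o V)) x 0 = Pool.Agent.K7.H83.SI.bl (ev (shf o V)) x := by
    ext E
    unfold blt
    simp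
  rwa [e] at h1

/-- **conserved fields are functions of the energy** -/
theorem bic (hd : 1 ≤ d) {K : ℝ} {ν : Measure ℝ} [IsProbabilityMeasure ν]
    (hK : ∀ᵐ r ∂ν, |r| ≤ K) (hac : ν ≪ volume)
    (hev : ∀ ω : NB.Site d → ℝ, NB.IsGrp (-1) (fun x => 2 * d + ω x) (ev ω))
    {B : OF d} {M : ℝ} (hB : Fld M B)
    (cB : ∀ᵐ ω ∂(NB.PP d ν), ∀ t x, B ω ((ev ω).U t x) = (ev ω).U t (B ω x)) :
    ∀ᵐ ω ∂(NB.PP d ν), ∀ T : L2 d →L[ℂ] L2 d, (∀ t x, T ((ev ω).U t x) = (ev ω).U t (T x)) →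
      ∀ x, B ω (T x) = T (B ω x) := by
  obtain ⟨f, hf1, hf2, hf3⟩ := main_gen hd hK (no_one hac) hev (W := B) (M := M) hB.bd
    (fun u x => by
      have h1 := hB.meas (fun _ => u) stronglyMeasurable_const
      exact ((NB.STAT.cont_eval x).comp_stronglyMeasurable h1).measurable) hB.cov cB
  filter_upwards [hf3, orth_off hev ν hac, cB] with ω ⟨h1, h2, h3, _⟩ h4 h5 T hT x
  refine bicomm h4 h5 hT (fun u hu => ?_) x
  have hTH : ∀ x, T (HV K ω x) = HV K ω (T x) := by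
    refine comm_of_Ex fun t x => ?_
    rw [← grp_Ex h1 (hev ω), ← grp_Ex h1 (hev ω), hT]
  rw [sm_spm h1 (hev ω)] at hu
  set D : L2 d →L[ℂ] L2 d := B ω ∘L T - T ∘L B ω with hD
  have hDa : ∀ v, D v = B ω (T v) - T (B ω v) := fun v => rfl
  have hDH : ∀ x, D (HV K ω x) = HV K ω (D x) := by
    intro x
    rw [hDa, hDa, hTH, h2, h2, hTH, map_sub]
  have h6 : ∀ᵐ E : ℝ, Ngl (HV K ω) E (D u - (fun _ : ℝ => (0 : ℂ)) E • u) := by
    filter_upwards [h3 u, h3 (T u)] with E e1 e2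
    have e3 := e1.comm (HV_sa K ω) hTH
    have e4 := e2.sub e3
    have e5 : D u - (fun _ : ℝ => (0 : ℂ)) E • u = (B ω (T u) - f E • T u) -
        T (B ω u - f E • u) := by
      rw [hDa, map_sub, map_smul]
      module
    rw [e5]
    exact e4
  have h7 := norm_of_ngl' (HV_sa K ω) hDH (measurable_const (a := (0 : ℂ))) (R := 0)
    (fun E => by simp) hu h6
  simp only [norm_zero, ne_eq, OfNat.ofNat_ne_zero, not_false_eq_true, zero_pow,
    integral_zero] at h7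
  have h8 : D u = 0 := by
    have : ‖D u‖ = 0 := by
      by_contra hne
      have := pow_ne_zero 2 hne
      exact this h7
    exact norm_eq_zero.1 this
  rw [hDa] at h8
  exact sub_eq_zero.1 h8

/-- **no eigenoperators** -/
theorem no_eig_all (hd : 1 ≤ d) {K : ℝ} {ν : Measure ℝ} [IsProbabilityMeasure ν]
    (hK : ∀ᵐ r ∂ν, |r| ≤ K) (hac : ν ≪ volume)
    (hev : ∀ ω : NB.Site d → ℝ, NB.IsGrp (-1) (fun x => 2 * d + ω x) (ev ω))
    {W : OF d} {M : ℝ} (hW : Fld M W) (hW' : Fld M (adjF W)) {μ : ℝ} (hμ : μ ≠ 0)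
    (hc : ∀ᵐ ω ∂(NB.PP d ν), ∀ t x, W ω ((ev ω).U t x) = ph μ (-t) • (ev ω).U t (W ω x)) :
    ∀ᵐ ω ∂(NB.PP d ν), W ω = 0 := by
  filter_upwards [no_eig hd hK (no_one hac) hev hW hW' hμ hc, good_off hev ν hac hμ,
    bd_ae (d := d) hK, hc] with ω h1 h2 h3 h4
  refine kill_all h4 h2 fun u hu => h1 u ?_
  rwa [← sm_spm h3 (hev ω)]

/-- weak mixing, given the conserved part -/
theorem wk_of_lim (hd : 1 ≤ d) {K : ℝ} {ν : Measure ℝ} [IsProbabilityMeasure ν]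
    (hK : ∀ᵐ r ∂ν, |r| ≤ K) (hac : ν ≪ volume)
    (hev : ∀ ω : NB.Site d → ℝ, NB.IsGrp (-1) (fun x => 2 * d + ω x) (ev ω))
    {A B : OF d} {M C : ℝ} (hA : Fld M A) (hA' : Fld M (adjF A))
    (hB : Fld C B) (hB' : Fld C (adjF B))
    (cB : ∀ V t x, B V ((ev V).U t x) = (ev V).U t (B V x))
    (lB : ∀ᵐ V ∂(NB.PP d ν), ∀ x, Tendsto (fun N : ℕ => av 0 id (ev V) (A V) N x) atTop
        (𝓝 (B V x))) {ψ : (NB.Site d → ℝ) → L2 d} (hψ : MemLp ψ 2 (NB.PP d ν)) :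
    Wk (NB.PP d ν) (Hz ev (subF A B)) ψ := by
  have hM : 0 ≤ M := hA.nonneg
  have hC : 0 ≤ C := hB.nonneg
  have hPψ : ∀ᵐ ω ∂(NB.PP d ν), idF d ω (ψ ω) = ψ ω := Eventually.of_forall fun ω => rfl
  have hP : Fld 1 (idF d) := idF_fld
  have hD : Fld (M + C) (subF A B) := hA.sub hB
  have hMC : 0 ≤ M + C := add_nonneg hM hC
  have hL := lo_Hz hev ν hMC hD
  exact (all_states hL hP hψ hPψ).1 fun x => wk_of_pc
    (pcx0 hd hK hac hev hM hC hA hA' hB hB' cB lB x)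

theorem vel_fld {j : Fin d} {v : L2 d →L[ℂ] L2 d} (hv : NB.IsVel (-1) j v) :
    Fld ‖v‖ (fun _ => v : OF d) ∧ Fld ‖v‖ (adjF (fun _ => v : OF d)) := by
  refine flds (fun V ψ => v.le_opNorm ψ) (fun u x => measurable_const) fun z S hS V ψ => ?_
  exact NB.LIMB.vel_shift hv hS ψ

theorem vel_obs {j : Fin d} {v : L2 d →L[ℂ] L2 d} (hv : NB.IsVel (-1) j v) :
    Obs d (fun _ => v) ‖v‖ where
  symm V x y := NB.STAT.vel_symm NB.t_OPS (-1) j v hv x y
  bound V x := v.le_opNorm x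
  cont := v.continuous.comp continuous_snd
  cov z S hS V ψ := NB.LIMB.vel_shift hv hS ψ
  loc V κ := ⟨∅, 0, fun ψ => by simp⟩

/-- the averages of the velocity tend to zero -/
theorem vel_lim {o : ℝ} {ν : Measure ℝ} [IsProbabilityMeasure ν]
    (hac : ν ≪ volume)
    (hev : ∀ ω : NB.Site d → ℝ, NB.IsGrp (-1) (fun x => o + ω x) (ev ω))
    {j : Fin d} {v : L2 d →L[ℂ] L2 d} (hv : NB.IsVel (-1) j v) :
    ∀ᵐ V ∂(NB.PP d ν), ∀ x, Tendsto (fun N : ℕ => av 0 id (ev V) v N x) atTop (𝓝 0) := by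
  obtain ⟨B, C, hC, hB, hB', cB, lB⟩ := lim_gen (ν := ν) hev (vel_fld hv).1 (vel_fld hv).2
  obtain ⟨b, hb, hlim⟩ := lim_off o hev (vel_obs hv) ν (no_one hac)
  obtain ⟨a, ha, hG⟩ := hlim id tendsto_id
  have hNk : Tendsto (id ∘ a) atTop atTop := ha.tendsto_atTop
  have hgood : ∀ᵐ V ∂(NB.PP d (ν.map fun r : ℝ => o + r)),
      ∃ B : L2 d →L[ℂ] L2 d, NB.Good (ev (shf o V)) v (id ∘ a) B := by
    refine ae_off' ν o (Q := fun ω => ∃ B : L2 d →L[ℂ] L2 d, NB.Good (ev ω) v (id ∘ a) B) ?_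
    filter_upwards [hG] with ω ⟨B, h1, _⟩
    exact ⟨B, h1⟩
  have h1 := Pool.Agent.K7.H96.NBT.zero_off (ev_off hev) (ν.map fun r : ℝ => o + r) ∅
    MeasurableSet.empty (by
      rw [Set.compl_empty, Measure.restrict_univ]
      exact map_ac hac _) hv hNk hgood
  have h2 : ∀ᵐ ω ∂(NB.PP d ν), ∀ B : L2 d →L[ℂ] L2 d, NB.Good (ev ω) v (id ∘ a) B →
      B = 0 := by
    refine ae_off ν o ?_
    filter_upwards [h1] with V hV B hB
    exact Pool.Agent.K7.H96.NBT.zero_of_dl fun x => hV B hB x (Set.notMem_empty _)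
  filter_upwards [lB, hG, h2] with ω e1 ⟨B', e2, _⟩ e3 x
  have e4 := e3 B' e2
  have e5 := (e2 x).1
  rw [e4, zero_apply] at e5
  have e6 := (e1 x).comp hNk
  have e0 : ∀ N : ℕ, NB.avP (ev ω) v N x = av 0 id (ev ω) v N x := by
    intro N
    unfold NB.avP av
    congr 1
    refine intervalIntegral.integral_congr fun s _ => ?_
    show (ev ω).U (-s) (v ((ev ω).U s x)) = ph 0 s • (ev ω).U (-s) (v ((ev ω).U s x))
    have : ph 0 s = 1 := by
      unfold ph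
      simp
    rw [this, one_smul]
  simp only [e0] at e5
  have e7 : B ω x = 0 := tendsto_nhds_unique e6 e5
  have e8 := e1 x
  rwa [e7] at e8

/-- **weak mixing of the velocity** -/
theorem vel_wk (hd : 1 ≤ d) {K : ℝ} {ν : Measure ℝ} [IsProbabilityMeasure ν]
    (hK : ∀ᵐ r ∂ν, |r| ≤ K) (hac : ν ≪ volume)
    (hev : ∀ ω : NB.Site d → ℝ, NB.IsGrp (-1) (fun x => 2 * d + ω x) (ev ω))
    {j : Fin d} {v : L2 d →L[ℂ] L2 d} (hv : NB.IsVel (-1) j v)
    {ψ : (NB.Site d → ℝ) → L2 d} (hψ : MemLp ψ 2 (NB.PP d ν)) :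
    Wk (NB.PP d ν) (Hz ev (fun _ => v)) ψ := by
  have hz : Fld 0 (fun _ => 0 : OF d) := by
    refine ⟨fun V ψ => ?_, fun f hf => ?_, fun z S hS V ψ => ?_⟩
    · rw [zero_apply, norm_zero, zero_mul]
    · simp only [zero_apply]
      exact stronglyMeasurable_const
    · rw [zero_apply, zero_apply, map_zero]
  have hz' : Fld 0 (adjF (fun _ => 0 : OF d)) := by
    have e : adjF (fun _ => 0 : OF d) = fun _ => 0 := by
      funext V
      unfold adjF
      exact map_zero _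
    rw [e]
    exact hz
  have h := wk_of_lim (B := fun _ => 0) hd hK hac hev (vel_fld hv).1 (vel_fld hv).2 hz hz'
    (fun V t x => by rw [zero_apply, zero_apply, map_zero]) (by
      filter_upwards [vel_lim hac hev hv] with V hV x
      rw [zero_apply]
      exact hV x) hψ
  have e : subF (fun _ => v : OF d) (fun _ => 0) = fun _ => v := by
    funext V
    show v - 0 = v
    exact sub_zero v
  rwa [e] at h

end fin

end Pool.Agent.H988.RS
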