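import Mathlib

/-! # A uniqueness theorem for bounded holomorphic functions on the upper half plane

A bounded holomorphic function on the upper half plane which tends to zero along a sequence
`x + i η_n`, `η_n → 0`, for all `x` in a set of positive measure vanishes identically. -/

set_option autoImplicit false

open MeasureTheory Filter Topology Metric Set
open scoped ENNReal NNReal

namespace Pool.Agent.H988.RS

/-- Jensen's inequality with a cut-off logarithm -/
theorem jensen_cut {F : ℂ → ℂ} {r δ : ℝ} (hr : 0 < r) (hδ : 0 < δ)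
    (hF : AnalyticOnNhd ℂ F (closedBall 0 |r|)) (h0 : F 0 ≠ 0) :
    Real.log ‖F 0‖ ≤ Real.circleAverage (fun z => Real.log (max ‖F z‖ δ)) 0 r := by
  have h1 := hF.circleAverage_log_norm hr.ne' h0
  have h2 : 0 ≤ ∑ᶠ u, MeromorphicOn.divisor F (closedBall 0 |r|) u *
      Real.log (r * ‖0 - u‖⁻¹) := by
    refine finsum_nonneg fun u => ?_
    by_cases hu : u ∈ closedBall (0 : ℂ) |r|
    · refine mul_nonneg (mod_cast MeromorphicOn.AnalyticOnNhd.divisor_nonneg hF u) ?_
      by_cases hu0 : u = 0
      · rw [hu0]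
        simp
      · refine Real.log_nonneg ?_
        rw [mem_closedBall, dist_zero_right, abs_of_pos hr] at hu
        have h3 : 0 < ‖u‖ := norm_pos_iff.2 hu0
        rw [zero_sub, norm_neg, ← div_eq_mul_inv, le_div_iff₀ h3, one_mul]
        exact hu
    · rw [Function.locallyFinsuppWithin.apply_eq_zero_of_notMem _ hu]
      simp
  have hconn : IsConnected (closedBall (0 : ℂ) |r|) :=
    (convex_closedBall (0 : ℂ) |r|).isConnected ⟨0, by simp⟩
  have hcod : F ⁻¹' {0}ᶜ ∈ codiscreteWithin (sphere (0 : ℂ) |r|) :=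
    Filter.codiscreteWithin_mono sphere_subset_closedBall
      (hF.preimage_zero_mem_codiscreteWithin h0 (by simp) hconn)
  have hci : CircleIntegrable (fun z => Real.log ‖F z‖) 0 r :=
    ((hF.mono sphere_subset_closedBall).meromorphicOn.circleIntegrable_log_norm)
  set g : ℂ → ℝ := fun z => if F z = 0 then Real.log δ else Real.log ‖F z‖ with hg
  have hcongr : (fun z => Real.log ‖F z‖) =ᶠ[codiscreteWithin (sphere (0 : ℂ) |r|)] g := by
    filter_upwards [hcod] with z hz
    have hz' : F z ≠ 0 := hz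
    simp only [hg, if_neg hz']
  have h3 : Real.circleAverage (fun z => Real.log ‖F z‖) 0 r = Real.circleAverage g 0 r :=
    Real.circleAverage_congr_codiscreteWithin hcongr hr.ne'
  have hgi : CircleIntegrable g 0 r := CircleIntegrable.congr_codiscreteWithin hcongr hci
  have hcont : ContinuousOn (fun z => Real.log (max ‖F z‖ δ)) (sphere (0 : ℂ) |r|) := by
    refine ContinuousOn.log ?_ fun z _ => (lt_max_of_lt_right hδ).ne'
    have h4 : ContinuousOn F (sphere (0 : ℂ) |r|) :=
      (hF.mono sphere_subset_closedBall).continuousOn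
    exact h4.norm.sup continuousOn_const
  have h5 : Real.circleAverage g 0 r ≤
      Real.circleAverage (fun z => Real.log (max ‖F z‖ δ)) 0 r := by
    refine Real.circleAverage_mono hgi ?_ fun z _ => ?_
    · exact ContinuousOn.circleIntegrable' (by simpa using hcont)
    · simp only [hg]
      split_ifs with hz
      · exact Real.log_le_log hδ (le_max_right _ _)
      · exact Real.log_le_log (norm_pos_iff.2 hz) (le_max_left _ _)
  rw [h3] at h1
  linarith

/-- the conformal map of the unit disc onto the upper half plane -/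
noncomputable def cay (w : ℂ) : ℂ := Complex.I * (1 + w) / (1 - w)

theorem cay_im {w : ℂ} (hw : w ≠ 1) : (cay w).im = (1 - ‖w‖ ^ 2) / ‖1 - w‖ ^ 2 := by
  have h1 : (1 : ℂ) - w ≠ 0 := sub_ne_zero.2 hw.symm
  have h2 : (0 : ℝ) < Complex.normSq (1 - w) := Complex.normSq_pos.2 h1
  unfold cay
  rw [Complex.div_im, ← Complex.normSq_eq_norm_sq, ← Complex.normSq_eq_norm_sq]
  field_simp
  simp [Complex.normSq_apply]
  ring

theorem cay_im_pos {w : ℂ} (hw : ‖w‖ < 1) : 0 < (cay w).im := by
  have h1 : w ≠ 1 := fun h => by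
    rw [h] at hw
    simp at hw
  rw [cay_im h1]
  have h2 : (0 : ℝ) < ‖1 - w‖ := norm_pos_iff.2 (sub_ne_zero.2 h1.symm)
  have h3 : ‖w‖ ^ 2 < 1 := by
    have := norm_nonneg w
    nlinarith
  have h4 : 0 < 1 - ‖w‖ ^ 2 := by linarith
  positivity

theorem cay_diff : DifferentiableOn ℂ cay {w | w ≠ 1} := by
  intro w hw
  unfold cay
  have h1 : (1 : ℂ) - w ≠ 0 := sub_ne_zero.2 (Ne.symm hw)
  exact DifferentiableAt.differentiableWithinAt (by fun_prop (disch := exact h1))

theorem cay_zero : cay 0 = Complex.I := by simp [cay]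

/-- the real point with the angle `θ` -/
noncomputable def xr (θ : ℝ) : ℝ := -(Real.sin θ / (1 - Real.cos θ))

theorem cos_lt_one {θ : ℝ} (h : θ ∈ Ioo 0 (2 * Real.pi)) : Real.cos θ < 1 := by
  refine lt_of_le_of_ne (Real.cos_le_one θ) fun h1 => ?_
  obtain ⟨n, hn⟩ := (Real.cos_eq_one_iff θ).1 h1
  have h2 : (0 : ℝ) < n := by
    by_contra h3
    push Not at h3
    have : (n : ℝ) * (2 * Real.pi) ≤ 0 :=
      mul_nonpos_of_nonpos_of_nonneg h3 Real.two_pi_pos.le
    linarith [h.1]
  have h3 : (n : ℝ) < 1 := by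
    by_contra h4
    push Not at h4
    have : 2 * Real.pi ≤ (n : ℝ) * (2 * Real.pi) := by nlinarith [Real.two_pi_pos]
    linarith [h.2]
  have h4 : (0 : ℤ) < n := by exact_mod_cast h2
  have h5 : n < (1 : ℤ) := by exact_mod_cast h3
  omega

theorem cay_circle {θ : ℝ} (h : θ ∈ Ioo 0 (2 * Real.pi)) :
    circleMap 0 1 θ ≠ 1 ∧ cay (circleMap 0 1 θ) = (xr θ : ℝ) := by
  have h1 := cos_lt_one h
  have e : circleMap 0 1 θ = Real.cos θ + Real.sin θ * Complex.I := by
    simp [circleMap, Complex.exp_mul_I]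
  have h2 : circleMap 0 1 θ ≠ 1 := by
    rw [e]
    intro h3
    have := congrArg Complex.re h3
    simp [-Complex.ofReal_cos, -Complex.ofReal_sin] at this
    linarith
  refine ⟨h2, ?_⟩
  have h3 : (1 : ℂ) - circleMap 0 1 θ ≠ 0 := sub_ne_zero.2 h2.symm
  have h4 : ((1 : ℂ) - Complex.cos θ) ≠ 0 := by
    have : (1 : ℝ) - Real.cos θ ≠ 0 := by linarith
    rw [← Complex.ofReal_cos]
    exact_mod_cast this
  unfold cay xr
  rw [div_eq_iff h3, e]
  push_cast
  rw [neg_mul, div_mul_eq_mul_div, eq_neg_iff_add_eq_zero, ← mul_right_inj' h4, mul_add,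
    mul_div_cancel₀ _ h4, mul_zero]
  have h5 := Complex.sin_sq_add_cos_sq (θ : ℂ)
  have h6 := Complex.I_sq
  linear_combination (-Complex.I * (1 : ℂ)) * h5 + (Complex.sin θ * (1 - Complex.cos θ) : ℂ) * h6

theorem xr_diff : DifferentiableOn ℝ xr (Ioo 0 (2 * Real.pi)) := by
  intro θ h
  have h1 : (1 : ℝ) - Real.cos θ ≠ 0 := by linarith [cos_lt_one h]
  unfold xr
  exact DifferentiableAt.differentiableWithinAt (by fun_prop (disch := exact h1))

/-- every real number is of this form -/
theorem xr_surj (x : ℝ) : ∃ θ ∈ Ioo 0 (2 * Real.pi), xr θ = x := by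
  obtain ⟨φ, hφ⟩ : ∃ φ, φ = Real.arctan x := ⟨_, rfl⟩
  have h1 := Real.neg_pi_div_two_lt_arctan x
  have h2 := Real.arctan_lt_pi_div_two x
  rw [← hφ] at h1 h2
  refine ⟨2 * φ + Real.pi, ⟨by linarith, by linarith⟩, ?_⟩
  have hc : 0 < Real.cos φ := Real.cos_pos_of_mem_Ioo ⟨h1, h2⟩
  have ht : Real.tan φ = x := by rw [hφ]; exact Real.tan_arctan x
  unfold xr
  rw [Real.sin_add_pi, Real.cos_add_pi, Real.sin_two_mul, Real.cos_two_mul, ← ht,
    Real.tan_eq_sin_div_cos]
  field_simp
  ring

/-- the inequality on the horizontal line of height `η` -/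
theorem line_ineq {f : ℂ → ℂ} (hf : DifferentiableOn ℂ f {z | 0 < z.im})
    (hb : ∀ z : ℂ, 0 < z.im → ‖f z‖ ≤ 1) {η δ : ℝ} (hη : 0 < η) (hδ : 0 < δ) (hδ1 : δ < 1)
    (h0 : f (Complex.I + η * Complex.I) ≠ 0) :
    Real.log ‖f (Complex.I + η * Complex.I)‖ ≤ (2 * Real.pi)⁻¹ *
      ∫ θ in Ioo 0 (2 * Real.pi), Real.log (max ‖f (xr θ + η * Complex.I)‖ δ) := by
  set F : ℂ → ℂ := fun w => f (cay w + η * Complex.I) with hFdef
  have hFd : DifferentiableOn ℂ F (ball 0 1) := by
    refine hf.comp ((cay_diff.mono fun w hw => ?_).add_const _) fun w hw => ?_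
    · rw [mem_ball, dist_zero_right] at hw
      intro h
      rw [h] at hw
      simp at hw
    · rw [mem_ball, dist_zero_right] at hw
      have := cay_im_pos hw
      simp
      linarith
  have hF0 : F 0 = f (Complex.I + η * Complex.I) := by
    simp only [hFdef, cay_zero]
  set r : ℕ → ℝ := fun n => 1 - 1 / ((n : ℝ) + 2) with hr
  have hr0 : ∀ n, 0 < r n := fun n => by
    simp only [hr]
    rw [sub_pos, div_lt_one (by positivity)]
    have : (0 : ℝ) ≤ n := Nat.cast_nonneg n
    linarith
  have hr1 : ∀ n, r n < 1 := fun n => by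
    simp only [hr]
    have : 0 < 1 / ((n : ℝ) + 2) := by positivity
    linarith
  have hrl : Tendsto r atTop (𝓝 1) := by
    have h1 : Tendsto (fun n : ℕ => 1 / ((n : ℝ) + 2)) atTop (𝓝 0) := by
      have h2 := (tendsto_natCast_atTop_atTop (R := ℝ)).atTop_add (tendsto_const_nhds (x := (2 : ℝ)))
      simp only [one_div]
      exact h2.inv_tendsto_atTop
    have h3 := h1.const_sub 1
    rw [sub_zero] at h3
    exact h3
  have hA : ∀ n, Real.log ‖F 0‖ ≤
      Real.circleAverage (fun z => Real.log (max ‖F z‖ δ)) 0 (r n) := fun n => by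
    refine jensen_cut (hr0 n) hδ ?_ (by rw [hF0]; exact h0)
    refine (hFd.analyticOnNhd isOpen_ball).mono fun w hw => ?_
    rw [mem_closedBall, dist_zero_right, abs_of_pos (hr0 n)] at hw
    rw [mem_ball, dist_zero_right]
    exact hw.trans_lt (hr1 n)
  have hB : Tendsto (fun n => Real.circleAverage (fun z => Real.log (max ‖F z‖ δ)) 0 (r n)) atTop
      (𝓝 ((2 * Real.pi)⁻¹ *
        ∫ θ in Ioo 0 (2 * Real.pi), Real.log (max ‖f (xr θ + η * Complex.I)‖ δ))) := by
    have e1 : ∀ n, Real.circleAverage (fun z => Real.log (max ‖F z‖ δ)) 0 (r n) =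
        (2 * Real.pi)⁻¹ * ∫ θ in Ioo 0 (2 * Real.pi),
          Real.log (max ‖F (circleMap 0 (r n) θ)‖ δ) := by
      intro n
      rw [Real.circleAverage_def, intervalIntegral.integral_of_le Real.two_pi_pos.le,
        integral_Ioc_eq_integral_Ioo, smul_eq_mul]
    simp_rw [e1]
    refine Tendsto.const_mul _ ?_
    have hbd : ∀ z : ℂ, ‖F z‖ ≤ 1 → ‖Real.log (max ‖F z‖ δ)‖ ≤ -Real.log δ := by
      intro z hz
      have h1 : Real.log (max ‖F z‖ δ) ≤ 0 :=
        Real.log_nonpos (by positivity) (max_le hz hδ1.le)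
      rw [Real.norm_of_nonpos h1, neg_le_neg_iff]
      exact Real.log_le_log hδ (le_max_right _ _)
    have hin : ∀ n (θ : ℝ), ‖circleMap 0 (r n) θ‖ < 1 := by
      intro n θ
      rw [norm_circleMap_zero, abs_of_pos (hr0 n)]
      exact hr1 n
    refine tendsto_integral_of_dominated_convergence (fun _ => -Real.log δ) (fun n => ?_)
      (integrable_const _) (fun n => ?_) ?_
    · have h1 : Continuous fun θ : ℝ => F (circleMap 0 (r n) θ) := by
        refine hFd.continuousOn.comp_continuous (continuous_circleMap 0 (r n)) fun θ => ?_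
        rw [mem_ball, dist_zero_right]
        exact hin n θ
      refine Continuous.aestronglyMeasurable ?_
      exact (h1.norm.max continuous_const).log fun θ => (lt_max_of_lt_right hδ).ne'
    · refine Eventually.of_forall fun θ => hbd _ (hb _ ?_)
      have := cay_im_pos (hin n θ)
      simp
      linarith
    · rw [ae_restrict_iff' measurableSet_Ioo]
      refine Eventually.of_forall fun θ hθ => ?_
      obtain ⟨h1, h2⟩ := cay_circle hθ
      have h3 : Tendsto (fun n => circleMap 0 (r n) θ) atTop (𝓝 (circleMap 0 1 θ)) := by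
        unfold circleMap
        have h4 : Tendsto (fun n => ((r n : ℝ) : ℂ)) atTop (𝓝 ((1 : ℝ) : ℂ)) :=
          (Complex.continuous_ofReal.tendsto 1).comp hrl
        exact (h4.mul_const _).const_add _
      have h4 : ContinuousAt cay (circleMap 0 1 θ) := by
        have h5 : {w : ℂ | w ≠ 1} ∈ 𝓝 (circleMap 0 1 θ) := isOpen_ne.mem_nhds h1
        exact (cay_diff.differentiableAt h5).continuousAt
      have h5 : Tendsto (fun n => cay (circleMap 0 (r n) θ) + η * Complex.I) atTop
          (𝓝 ((xr θ : ℂ) + η * Complex.I)) := by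
        rw [← h2]
        exact (h4.tendsto.comp h3).add_const _
      have h6 : ContinuousAt f ((xr θ : ℂ) + η * Complex.I) := by
        refine (hf.differentiableAt ?_).continuousAt
        refine (isOpen_lt continuous_const Complex.continuous_im).mem_nhds ?_
        simp
        exact hη
      have h7 := h6.tendsto.comp h5
      have h8 : Tendsto (fun n => max ‖F (circleMap 0 (r n) θ)‖ δ) atTop
          (𝓝 (max ‖f (xr θ + η * Complex.I)‖ δ)) := (h7.norm).max tendsto_const_nhds
      exact h8.log (lt_max_of_lt_right hδ).ne'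
  rw [← hF0]
  exact ge_of_tendsto' hB hA

theorem xr_meas : Measurable xr := by
  unfold xr
  exact (Real.measurable_sin.div (measurable_const.sub Real.measurable_cos)).neg

/-- the centre `i` -/
theorem fmr_centre {f : ℂ → ℂ} (hf : DifferentiableOn ℂ f {z | 0 < z.im})
    (hb : ∀ z : ℂ, 0 < z.im → ‖f z‖ ≤ 1) {η : ℕ → ℝ} (hη : ∀ n, 0 < η n)
    (hη0 : Tendsto η atTop (𝓝 0)) {N : Set ℝ} (hN : MeasurableSet N)
    (hlim : ∀ x ∈ N, Tendsto (fun n => f (x + η n * Complex.I)) atTop (𝓝 0))
    (h0 : f Complex.I ≠ 0) : volume N = 0 := by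
  -- the set of the angles
  set T : Set ℝ := Ioo 0 (2 * Real.pi) ∩ xr ⁻¹' N with hT
  have hTm : MeasurableSet T := measurableSet_Ioo.inter (xr_meas hN)
  have hNT : N = xr '' T := by
    ext x
    constructor
    · intro hx
      obtain ⟨θ, h1, h2⟩ := xr_surj x
      exact ⟨θ, ⟨h1, by rw [mem_preimage, h2]; exact hx⟩, h2⟩
    · rintro ⟨θ, hθ, rfl⟩
      exact hθ.2
  suffices hT0 : volume T = 0 by
    rw [hNT]
    exact addHaar_image_eq_zero_of_differentiableOn_of_addHaar_eq_zero volume
      (xr_diff.mono inter_subset_left) hT0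
  have hfin : volume T ≠ ∞ := ne_top_of_le_ne_top (by rw [Real.volume_Ioo]; exact ENNReal.ofReal_ne_top)
    (measure_mono inter_subset_left)
  by_contra hne
  have hTpos : 0 < (volume T).toReal := ENNReal.toReal_pos hne hfin
  have hcI : ContinuousAt f Complex.I := by
    refine (hf.differentiableAt ?_).continuousAt
    refine (isOpen_lt continuous_const Complex.continuous_im).mem_nhds ?_
    simp
  have hη0' : Tendsto (fun n => Complex.I + (η n : ℂ) * Complex.I) atTop (𝓝 Complex.I) := by
    have h1 : Tendsto (fun n => ((η n : ℝ) : ℂ)) atTop (𝓝 ((0 : ℝ) : ℂ)) :=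
      (Complex.continuous_ofReal.tendsto 0).comp hη0
    have h2 := (h1.mul_const Complex.I).const_add Complex.I
    simpa using h2
  have hlim0 := hcI.tendsto.comp hη0'
  have key : ∀ δ : ℝ, 0 < δ → δ < 1 →
      Real.log ‖f Complex.I‖ ≤ (2 * Real.pi)⁻¹ * ((volume T).toReal * Real.log δ) := by
    intro δ hδ hδ1
    have h1 : Tendsto (fun n => Real.log ‖f (Complex.I + η n * Complex.I)‖) atTop
        (𝓝 (Real.log ‖f Complex.I‖)) := (hlim0.norm).log (norm_pos_iff.2 h0).ne'
    have hcont : ∀ n, ContinuousOn (fun θ : ℝ => Real.log (max ‖f (xr θ + η n * Complex.I)‖ δ))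
        (Ioo 0 (2 * Real.pi)) := by
      intro n
      refine ContinuousOn.log ?_ fun θ _ => (lt_max_of_lt_right hδ).ne'
      refine ContinuousOn.sup (ContinuousOn.norm ?_) continuousOn_const
      refine hf.continuousOn.comp ?_ fun θ _ => ?_
      · exact (Complex.continuous_ofReal.comp_continuousOn xr_diff.continuousOn).add
          continuousOn_const
      · simp
        exact hη n
    have hbd : ∀ (n : ℕ) (θ : ℝ), ‖Real.log (max ‖f (xr θ + η n * Complex.I)‖ δ)‖ ≤
        -Real.log δ := by
      intro n θ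
      have h2 : ‖f (xr θ + η n * Complex.I)‖ ≤ 1 := hb _ (by simp; exact hη n)
      have h3 : Real.log (max ‖f (xr θ + η n * Complex.I)‖ δ) ≤ 0 :=
        Real.log_nonpos (by positivity) (max_le h2 hδ1.le)
      rw [Real.norm_of_nonpos h3, neg_le_neg_iff]
      exact Real.log_le_log hδ (le_max_right _ _)
    have hint : ∀ n, IntegrableOn (fun θ : ℝ => Real.log (max ‖f (xr θ + η n * Complex.I)‖ δ))
        (Ioo 0 (2 * Real.pi)) := by
      intro n
      refine Integrable.mono' (integrable_const (-Real.log δ))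
        ((hcont n).aestronglyMeasurable measurableSet_Ioo) (Eventually.of_forall (hbd n))
    have h2 : Tendsto (fun n => (2 * Real.pi)⁻¹ *
        ∫ θ in T, Real.log (max ‖f (xr θ + η n * Complex.I)‖ δ)) atTop
        (𝓝 ((2 * Real.pi)⁻¹ * ((volume T).toReal * Real.log δ))) := by
      refine Tendsto.const_mul _ ?_
      have e : (volume T).toReal * Real.log δ = ∫ _ in T, Real.log δ := by
        rw [setIntegral_const, smul_eq_mul]
        rfl
      rw [e]
      have : IsFiniteMeasure (volume.restrict T) := ⟨by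
        rw [Measure.restrict_apply_univ]
        exact lt_top_iff_ne_top.2 hfin⟩
      refine tendsto_integral_of_dominated_convergence (fun _ => -Real.log δ) (fun n => ?_)
        (integrable_const _) (fun n => Eventually.of_forall (hbd n)) ?_
      · exact (hint n).aestronglyMeasurable.mono_set inter_subset_left
      · rw [ae_restrict_iff' hTm]
        refine Eventually.of_forall fun θ hθ => ?_
        have h3 := (hlim _ hθ.2).norm
        rw [norm_zero] at h3
        have h4 := h3.max (tendsto_const_nhds (x := δ))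
        rw [max_eq_right hδ.le] at h4
        exact h4.log hδ.ne'
    refine le_of_tendsto_of_tendsto h1 h2 ?_
    filter_upwards [hlim0.eventually_ne h0] with n hn
    refine (line_ineq hf hb (hη n) hδ hδ1 hn).trans ?_
    refine mul_le_mul_of_nonneg_left ?_ (by positivity)
    have h5 : ∫ θ in Ioo 0 (2 * Real.pi), Real.log (max ‖f (xr θ + η n * Complex.I)‖ δ) =
        (∫ θ in T, Real.log (max ‖f (xr θ + η n * Complex.I)‖ δ)) +
        ∫ θ in Ioo 0 (2 * Real.pi) \ T, Real.log (max ‖f (xr θ + η n * Complex.I)‖ δ) := by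
      rw [← setIntegral_union disjoint_sdiff_self_right (measurableSet_Ioo.diff hTm)
        ((hint n).mono_set inter_subset_left) ((hint n).mono_set sdiff_subset),
        union_sdiff_cancel inter_subset_left]
    rw [h5]
    have h6 : ∫ θ in Ioo 0 (2 * Real.pi) \ T, Real.log (max ‖f (xr θ + η n * Complex.I)‖ δ) ≤ 0 :=
      integral_nonpos fun θ => Real.log_nonpos (by positivity)
        (max_le (hb _ (by simp; exact hη n)) hδ1.le)
    linarith
  -- contradiction
  set c : ℝ := (2 * Real.pi)⁻¹ * (volume T).toReal with hc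
  have hcpos : 0 < c := by positivity
  set M : ℝ := max 1 ((1 - Real.log ‖f Complex.I‖) / c) with hM
  have hM1 : 1 ≤ M := le_max_left _ _
  have h1 := key (Real.exp (-M)) (Real.exp_pos _) (by
    rw [Real.exp_lt_one_iff]
    linarith)
  rw [Real.log_exp] at h1
  have h2 : (1 - Real.log ‖f Complex.I‖) / c ≤ M := le_max_right _ _
  rw [div_le_iff₀ hcpos] at h2
  have h3 : (2 * Real.pi)⁻¹ * ((volume T).toReal * -M) = -(M * c) := by rw [hc]; ring
  rw [h3] at h1
  linarith

/-- **uniqueness theorem** -/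
theorem fmr {f : ℂ → ℂ} (hf : DifferentiableOn ℂ f {z | 0 < z.im})
    (hb : ∀ z : ℂ, 0 < z.im → ‖f z‖ ≤ 1) {η : ℕ → ℝ} (hη : ∀ n, 0 < η n)
    (hη0 : Tendsto η atTop (𝓝 0)) {N : Set ℝ} (hN : MeasurableSet N)
    (hlim : ∀ x ∈ N, Tendsto (fun n => f (x + η n * Complex.I)) atTop (𝓝 0))
    (hpos : volume N ≠ 0) {z : ℂ} (hz : 0 < z.im) : f z = 0 := by
  by_contra h0
  apply hpos
  set a := z.re with ha
  set b := z.im with hbb
  set g : ℂ → ℂ := fun w => f (a + b * w) with hg
  have hmap : ∀ w : ℂ, 0 < w.im → 0 < ((a : ℂ) + b * w).im := by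
    intro w hw
    simp
    exact mul_pos hz hw
  have hgd : DifferentiableOn ℂ g {z | 0 < z.im} := by
    refine hf.comp ?_ fun w hw => hmap w hw
    exact ((differentiable_id.const_mul (b : ℂ)).const_add (a : ℂ)).differentiableOn
  have h1 := fmr_centre hgd (fun w hw => hb _ (hmap w hw)) (η := fun n => η n / b)
    (fun n => div_pos (hη n) hz) (by simpa using hη0.div_const b)
    (N := (fun x : ℝ => a + b * x) ⁻¹' N)
    ((by fun_prop : Measurable fun x : ℝ => a + b * x) hN) (fun x hx => by
      have h2 := hlim _ hx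
      refine h2.congr fun n => ?_
      simp only [hg]
      congr 1
      have hb0 : (b : ℂ) ≠ 0 := by exact_mod_cast hz.ne'
      push_cast
      field_simp
      ring) (by
      simp only [hg]
      have e : (a : ℂ) + b * Complex.I = z := by
        rw [ha, hbb]
        exact Complex.re_add_im z
      rw [e]
      exact h0)
  have e2 : N = (fun x : ℝ => a + b * x) '' ((fun x : ℝ => a + b * x) ⁻¹' N) := by
    rw [image_preimage_eq]
    intro y
    exact ⟨(y - a) / b, by field_simp; ring⟩
  rw [e2]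
  exact addHaar_image_eq_zero_of_differentiableOn_of_addHaar_eq_zero volume
    (by fun_prop) h1

end Pool.Agent.H988.RS
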