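import Pool.Agent.H988.RS.Per

/-! # The set of coincidences of boundary values -/

set_option autoImplicit false

open MeasureTheory Filter Topology Set
open scoped ENNReal NNReal InnerProductSpace ComplexConjugate

namespace Pool.Agent.H988.RS

open Pool.Agent.K7.H83.SI Pool.Agent.H5R2.NB

/-- the energies where the transforms of `a` at `E` and `E - lam` come together -/
def NN (a : ℝ → ℂ) (lam : ℝ) : Set ℝ :=
  {E | Tendsto (fun n : ℕ => (1 + Pool.Agent.K7.H83.SI.LT a E (1 / ((n : ℝ) + 1)))⁻¹ -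
    (1 + Pool.Agent.K7.H83.SI.LT a (E - lam) (1 / ((n : ℝ) + 1)))⁻¹) atTop (𝓝 0)}

theorem LT_cont1 {a : ℝ → ℂ} (ha : Continuous a) {C : ℝ} (hC : ∀ t, ‖a t‖ ≤ C) {ε : ℝ}
    (hε : 0 < ε) : Continuous fun E : ℝ => Pool.Agent.K7.H83.SI.LT a E ε := by
  have hj : Continuous fun p : ℝ × ℝ => a p.2 := ha.comp continuous_snd
  have h := LT_cont (Y := ℝ) (a := fun (_ : ℝ) (t : ℝ) => a t) hj (fun _ => hC) hε
  have h0 : Continuous fun E : ℝ => ((0 : ℝ), E) := by fun_prop
  have h1 := h.comp h0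
  have e : ((fun p : ℝ × ℝ => Pool.Agent.K7.H83.SI.LT ((fun (_ : ℝ) (t : ℝ) => a t) p.1) p.2 ε) ∘
    fun E : ℝ => ((0 : ℝ), E)) = fun E : ℝ => Pool.Agent.K7.H83.SI.LT a E ε := rfl
  rw [← e]
  exact h1

theorem NN_meas {a : ℝ → ℂ} (ha : Continuous a) {C : ℝ} (hC : ∀ t, ‖a t‖ ≤ C) (lam : ℝ) :
    MeasurableSet (NN a lam) := by
  unfold NN
  refine measurableSet_tendsto (𝓝 0) fun n => ?_
  have hε : (0 : ℝ) < 1 / ((n : ℝ) + 1) := by positivity
  generalize (1 : ℝ) / ((n : ℝ) + 1) = ε at hε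
  have h1 := LT_cont1 ha hC hε
  have h2 : Continuous fun E : ℝ => Pool.Agent.K7.H83.SI.LT a (E - lam) ε :=
    h1.comp (g := fun E : ℝ => Pool.Agent.K7.H83.SI.LT a E ε) (continuous_id.sub continuous_const)
  have m1 : Measurable fun E : ℝ => 1 + Pool.Agent.K7.H83.SI.LT a E ε :=
    measurable_const.add h1.measurable
  have m2 : Measurable fun E : ℝ => 1 + Pool.Agent.K7.H83.SI.LT a (E - lam) ε :=
    measurable_const.add h2.measurable
  exact m1.inv.sub m2.inv

theorem one_add_ne {w : ℂ} (hw : 0 ≤ w.re) : 1 + w ≠ 0 := by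
  intro h
  have := congrArg Complex.re h
  simp at this
  linarith

theorem inv_bd {w : ℂ} (hw : 0 ≤ w.re) : ‖(1 + w)⁻¹‖ ≤ 1 := by
  rw [norm_inv]
  refine inv_le_one_of_one_le₀ (le_trans ?_ (Complex.re_le_norm _))
  simp only [Complex.add_re, Complex.one_re]
  linarith

theorem NN_null {m : Measure ℝ} [IsFiniteMeasure m] (hm : m ≠ 0) {a : ℝ → ℂ}
    (hac : Continuous a) {C : ℝ} (hC : ∀ t, ‖a t‖ ≤ C)
    (ha : ∀ t : ℝ, a t = ∫ E : ℝ, Complex.exp (-(Complex.I * t * E)) ∂m) {lam : ℝ}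
    (hl : lam ≠ 0) : volume (NN a lam) = 0 := by
  by_contra hpos
  set f : ℂ → ℂ := fun z => ((1 + Lz m z)⁻¹ - (1 + Lz m (z - (lam : ℝ)))⁻¹) / 2 with hf
  have him : ∀ z : ℂ, 0 < z.im → 0 < (z - ((lam : ℝ) : ℂ)).im := by
    intro z hz
    simpa using hz
  have hd1 : DifferentiableOn ℂ (fun z => (1 + Lz m z)⁻¹) {z | 0 < z.im} := by
    refine ((Lz_diff m).const_add 1).inv fun z hz => ?_
    exact one_add_ne (Lz_re_nonneg hz)
  have hd : DifferentiableOn ℂ f {z | 0 < z.im} := by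
    refine (hd1.sub ?_).div_const 2
    exact hd1.comp ((differentiable_id.sub_const _).differentiableOn) fun z hz => him z hz
  have hb : ∀ z : ℂ, 0 < z.im → ‖f z‖ ≤ 1 := by
    intro z hz
    simp only [hf]
    rw [norm_div, Complex.norm_ofNat, div_le_iff₀ (by norm_num), one_mul]
    refine (norm_sub_le _ _).trans ?_
    have h1 := inv_bd (Lz_re_nonneg (m := m) hz)
    have h2 := inv_bd (Lz_re_nonneg (m := m) (him z hz))
    linarith
  have hη : ∀ n : ℕ, (0 : ℝ) < 1 / ((n : ℝ) + 1) := fun n => by positivity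
  have hlim : ∀ x ∈ NN a lam, Tendsto (fun n : ℕ => f (x + ((1 / ((n : ℝ) + 1) : ℝ) : ℂ) *
      Complex.I)) atTop (𝓝 0) := by
    intro x hx
    have hx' : Tendsto (fun n : ℕ => (1 + Pool.Agent.K7.H83.SI.LT a x (1 / ((n : ℝ) + 1)))⁻¹ -
      (1 + Pool.Agent.K7.H83.SI.LT a (x - lam) (1 / ((n : ℝ) + 1)))⁻¹) atTop (𝓝 0) := hx
    have h1 := hx'.div_const 2
    rw [zero_div] at h1
    refine h1.congr fun n => ?_
    rw [LT_eq ha x (hη n), LT_eq ha (x - lam) (hη n)]
    simp only [hf]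
    congr 4
    push_cast
    ring_nf
  have hz0 : ∀ z : ℂ, 0 < z.im → f z = 0 := fun z hz =>
    fmr hd hb hη tendsto_one_div_add_atTop_nhds_zero_nat (NN_meas hac hC lam) hlim hpos hz
  have hper : ∀ z : ℂ, 0 < z.im → Lz m z = Lz m (z - (lam : ℝ)) := by
    intro z hz
    have h1 := hz0 z hz
    simp only [hf] at h1
    rw [div_eq_zero_iff, or_iff_left (by norm_num), sub_eq_zero, inv_inj] at h1
    exact add_left_cancel h1
  have hiter : ∀ n : ℕ, Lz m (Complex.I - ((n * lam : ℝ) : ℂ)) = Lz m Complex.I := by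
    intro n
    induction n with
    | zero => simp
    | succ n ih =>
      rw [← ih, hper (Complex.I - ((n * lam : ℝ) : ℂ)) (by simp)]
      congr 1
      push_cast
      ring
  have hI : 0 < Complex.I.im := by simp
  have h1 := Lz_far m hI hl
  simp only [hiter] at h1
  have h2 := tendsto_nhds_unique tendsto_const_nhds h1
  have h3 := Lz_re_pos hm hI
  rw [h2] at h3
  simp at h3

/-- energies with `E` and `E - lam` in the blow up set of the perturbation -/
theorem AA_sub {a b : ℝ → ℂ} (ha : Continuous a) (hb : Continuous b) {C : ℝ}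
    (hCa : ∀ t, ‖a t‖ ≤ C) (hCb : ∀ t, ‖b t‖ ≤ C) {c : ℂ} (hc : 1 - c ≠ 0)
    (h : ∀ t, b t = a t - c * ∫ s in (0 : ℝ)..t, b s * a (t - s)) {E lam : ℝ}
    (h1 : E ∈ AA b) (h2 : E - lam ∈ AA b) : E ∈ NN a lam := by
  have key : ∀ E' : ℝ, E' ∈ AA b → Tendsto (fun n : ℕ =>
      (1 + Pool.Agent.K7.H83.SI.LT a E' (1 / ((n : ℝ) + 1)))⁻¹) atTop (𝓝 ((0 - c) / (0 + (1 - c)))) := by
    intro E' hE
    have h1' : Tendsto (fun n : ℕ => ‖Pool.Agent.K7.H83.SI.LT b E' (1 / ((n : ℝ) + 1))‖) atTop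
      atTop := hE
    have h3 : Tendsto (fun n : ℕ => (Pool.Agent.K7.H83.SI.LT b E' (1 / ((n : ℝ) + 1)))⁻¹) atTop
        (𝓝 0) := by
      rw [tendsto_zero_iff_norm_tendsto_zero]
      simp only [norm_inv]
      exact h1'.inv_tendsto_atTop
    have h4 := (h3.sub_const c).div (h3.add_const (1 - c)) (by rwa [zero_add])
    refine h4.congr' ?_
    filter_upwards [h1'.eventually_gt_atTop 0,
      (h3.add_const (1 - c)).eventually_ne (by rwa [zero_add])] with n p1 p2
    have q1 : Pool.Agent.K7.H83.SI.LT b E' (1 / ((n : ℝ) + 1)) ≠ 0 := norm_pos_iff.1 p1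
    have h7 := LT_volterra ha hb hCa hCb h E' (ε := 1 / ((n : ℝ) + 1)) (by positivity)
    simp only [Pi.div_apply]
    generalize Pool.Agent.K7.H83.SI.LT b E' (1 / ((n : ℝ) + 1)) = u at *
    generalize Pool.Agent.K7.H83.SI.LT a E' (1 / ((n : ℝ) + 1)) = w at *
    have h8 : (u⁻¹ + (1 - c)) * u = 1 + (1 - c) * u := by
      field_simp
    have h9 : 1 + (1 - c) * u ≠ 0 := by
      rw [← h8]
      exact mul_ne_zero p2 q1
    have h10 : (1 + w) * (1 - c * u) = 1 + (1 - c) * u := by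
      linear_combination -h7
    have h11 : 1 + w ≠ 0 := by
      intro h0
      rw [h0, zero_mul] at h10
      exact h9 h10.symm
    rw [div_eq_iff p2, inv_mul_eq_div, eq_div_iff h11]
    have h12 : (u⁻¹ - c) * u = 1 - c * u := by
      field_simp
    have h13 : ((u⁻¹ - c) * (1 + w)) * u = (u⁻¹ + (1 - c)) * u := by
      rw [h8, ← h10, ← h12]
      ring
    exact mul_right_cancel₀ q1 h13
  have h3 := (key E h1).sub (key (E - lam) h2)
  rw [sub_self] at h3
  exact h3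

end Pool.Agent.H988.RS
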