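import Pool.Agent.H988.RS.Dia

/-! # Eigenoperators vanish on the singular subspace -/

set_option autoImplicit false

open MeasureTheory Filter Topology Set ProbabilityTheory
open scoped ENNReal NNReal InnerProductSpace ComplexConjugate

namespace Pool.Agent.H988.RS

open Pool.Agent.K7.H83.SI Pool.Agent.H5R2.NB Pool.Agent.H988.WM

variable {d : ℕ} {W : UG (L2 (Site d))} {B : L2 (Site d) →L[ℂ] L2 (Site d)} {μ : ℝ}

/-- the properties of the blow up sets which hold almost surely -/
def GoodW (W : UG (L2 (Site d))) (μ : ℝ) : Prop :=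
  ∀ x : Site d, sm W (dl x) (bl W x ∩ blt W x μ) = 0 ∧
    ∀ φ : L2 (Site d), (∀ t, ⟪φ, W.U t (dl x)⟫_ℂ = 0) → sm W φ (blt W x μ) = 0

theorem goodW_ae {c : ℝ} {ev : (Site d → ℝ) → UG (L2 (Site d))} (hev : ∀ V, IsGrp c V (ev V))
    (ν : Measure ℝ) [IsProbabilityMeasure ν] (hν : ν ≪ volume) (hμ : μ ≠ 0) :
    ∀ᵐ V ∂(PP d ν), GoodW (ev V) μ := by
  have h1 : ∀ᵐ V ∂(PP d ν), ∀ x : Site d,
      sm (ev V) (dl x) (bl (ev V) x ∩ blt (ev V) x μ) = 0 :=
    ae_all_iff.2 fun x => diag_null hev ν hν x hμ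
  filter_upwards [h1, orth_null' hev ν hν μ] with V e1 e2 x
  exact ⟨e1 x, e2 x⟩

/-- vectors which are carried by a blow up set are mapped to zero -/
theorem kill_x (hB : ∀ t u, B (W.U t u) = ph μ (-t) • W.U t (B u)) (hW : GoodW W μ) (x : Site d)
    {w : L2 (Site d)} (hw : w ∈ nul W (bl W x)ᶜ) : B w = 0 := by
  have h1 : B w ∈ nul W (blt W x μ)ᶜ := nul_shift hB (bl_meas W x).compl hw
  obtain ⟨p, hp, hpo⟩ := exists_proj W (dl x) (B w)
  have h2 : sm W (B w) = sm W (B w - p) + sm W p := by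
    rw [← sm_add_orth W (fun t => hpo _ (cyc_U hp t)), sub_add_cancel]
  have h3 : sm W (B w - p) (blt W x μ)ᶜ + sm W p (blt W x μ)ᶜ = 0 := by
    have h4 := congrArg (fun m : Measure ℝ => m (blt W x μ)ᶜ) h2
    simp only [Measure.coe_add, Pi.add_apply] at h4
    rw [mem_nul.1 h1] at h4
    exact h4.symm
  have h5 : B w - p = 0 := by
    refine eq_zero_of_nul (B := blt W x μ) (mem_nul.2 ?_) (mem_nul.2 (add_eq_zero.1 h3).1)
    exact (hW x).2 _ fun t => hpo _ (U_mem_cyc W _ t)
  have h6 : dl x ∈ nul W (blt W x μ) := by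
    refine mem_nul.2 ?_
    have h7 : sm W (dl x) (blt W x μ ∩ (bl W x)ᶜ) = 0 := by
      have h8 := bl_ac W x (blt_null W x μ)
      rwa [Measure.restrict_apply (blt_meas W x μ)] at h8
    have h9 : blt W x μ ⊆ (bl W x ∩ blt W x μ) ∪ (blt W x μ ∩ (bl W x)ᶜ) := by
      intro E hE
      by_cases h : E ∈ bl W x
      · exact Or.inl ⟨h, hE⟩
      · exact Or.inr ⟨hE, h⟩
    exact measure_mono_null h9 (measure_union_null (hW x).1 h7)
  have h10 : p = 0 := eq_zero_of_nul (B := blt W x μ) (nul_of_cyc h6 hp)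
    (mem_nul.2 (add_eq_zero.1 h3).2)
  rw [h10, sub_zero] at h5
  exact h5

/-- **eigenoperators vanish on the singular subspace** -/
theorem kill_sing (hB : ∀ t u, B (W.U t u) = ph μ (-t) • W.U t (B u)) (hW : GoodW W μ)
    {u : L2 (Site d)} (hu : sm W u ⟂ₘ volume) : B u = 0 := by
  obtain ⟨S, hS, hu1, hu2⟩ := hu
  set M : Submodule ℂ (L2 (Site d)) := LinearMap.ker B.toLinearMap with hM
  have hMc : IsClosed (M : Set (L2 (Site d))) := B.isClosed_ker
  have hMm : ∀ v, v ∈ M ↔ B v = 0 := fun v => Iff.rfl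
  have hinv : ∀ t, ∀ v ∈ M, W.U t v ∈ M := by
    intro t v hv
    rw [hMm] at hv ⊢
    rw [hB, hv, map_zero, smul_zero]
  have : CompleteSpace M := hMc.completeSpace_coe
  set p := M.starProjection u with hp
  have hpM : p ∈ M := Submodule.starProjection_apply_mem _ _
  have hpo : ∀ v ∈ M, ⟪u - p, v⟫_ℂ = 0 := fun v hv =>
    Submodule.starProjection_inner_eq_zero u v hv
  have h2 : sm W u = sm W (u - p) + sm W p := by
    rw [← sm_add_orth W (fun t => hpo _ (hinv t p hpM)), sub_add_cancel]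
  have h3 : sm W (u - p) S = 0 := by
    have h4 := congrArg (fun m : Measure ℝ => m S) h2
    simp only [Measure.coe_add, Pi.add_apply] at h4
    rw [hu1] at h4
    exact (add_eq_zero.1 h4.symm).1
  have h5 : ∀ x : Site d, ⟪u - p, dl x⟫_ℂ = 0 := by
    intro x
    obtain ⟨w, -, hw1, hw2⟩ := exists_split W (dl x) (bl_meas W x)
    have hwM : w ∈ M := (hMm w).2 (kill_x hB hW x (nul_of_restrict (bl_meas W x) hw1))
    have h6 : ⟪u - p, dl x - w⟫_ℂ = 0 := by
      refine orth_of_nul (B := S) h3 (mem_nul.2 ?_)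
      rw [hw2]
      exact bl_ac W x hu2
    have h7 : (dl x : L2 (Site d)) = w + (dl x - w) := by abel
    rw [h7, inner_add_right, hpo w hwM, h6, add_zero]
  have h6 : u - p = 0 := by
    ext x
    have h7 := h5 x
    rw [← inner_conj_symm, ANTI.dl_inner] at h7
    have h8 : (u - p) x = 0 := by
      have := congrArg conj h7
      rwa [Complex.conj_conj, map_zero] at this
    rw [h8]
    rfl
  rw [sub_eq_zero.1 h6]
  exact hpM

/-- **eigenoperators which vanish on the absolutely continuous subspace are zero** -/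
theorem kill_all (hB : ∀ t u, B (W.U t u) = ph μ (-t) • W.U t (B u)) (hW : GoodW W μ)
    (hac : ∀ u, sm W u ≪ volume → B u = 0) : B = 0 := by
  have h1 : ∀ x : Site d, B (dl x) = 0 := by
    intro x
    obtain ⟨w, -, hw1, hw2⟩ := exists_split W (dl x) (bl_meas W x)
    have h2 : B w = 0 := kill_x hB hW x (nul_of_restrict (bl_meas W x) hw1)
    have h3 : B (dl x - w) = 0 := by
      refine hac _ ?_
      rw [hw2]
      exact bl_ac W x
    rw [map_sub, h2, sub_zero] at h3
    exact h3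
  have h2 : closure (Submodule.span ℂ (Set.range (dl (d := d))) : Set (L2 (Site d))) ⊆
      LinearMap.ker B.toLinearMap := by
    refine closure_minimal ?_ B.isClosed_ker
    have h5 : Submodule.span ℂ (Set.range (dl (d := d))) ≤ LinearMap.ker B.toLinearMap := by
      rw [Submodule.span_le]
      rintro _ ⟨y, rfl⟩
      exact h1 y
    exact h5
  ext1 u
  exact h2 (LIMB.dl_dense d u)

end Pool.Agent.H988.RS
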