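import Pool.Agent.H988.RS.Fmr
import Pool.Graph.R_pool_sql_team_seeded_35f281b4.K7.H83.SI.Meas

/-! # Borel transforms and their translates -/

set_option autoImplicit false

open MeasureTheory Filter Topology Set
open scoped ENNReal NNReal InnerProductSpace ComplexConjugate

namespace Pool.Agent.H988.RS

open Pool.Agent.K7.H83.SI Pool.Agent.H5R2.NB

/-- the Borel transform `∫ (-i (z - E))⁻¹ dm(E)` -/
noncomputable def Lz (m : Measure ℝ) (z : ℂ) : ℂ := ∫ E : ℝ, (-Complex.I * (z - E))⁻¹ ∂m

theorem im_le (z : ℂ) (E : ℝ) : z.im ≤ ‖-Complex.I * (z - E)‖ := by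
  refine le_trans ?_ (Complex.re_le_norm _)
  simp

theorem ne0 {z : ℂ} (hz : 0 < z.im) (E : ℝ) : -Complex.I * (z - E) ≠ 0 := by
  have := im_le z E
  exact norm_pos_iff.1 (hz.trans_le this)

theorem Lz_meas (z : ℂ) : Measurable fun E : ℝ => (-Complex.I * (z - E))⁻¹ := by fun_prop

theorem Lz_bd {z : ℂ} (hz : 0 < z.im) (E : ℝ) : ‖(-Complex.I * (z - E))⁻¹‖ ≤ z.im⁻¹ := by
  rw [norm_inv]
  exact inv_anti₀ hz (im_le z E)

theorem Lz_int (m : Measure ℝ) [IsFiniteMeasure m] {z : ℂ} (hz : 0 < z.im) :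
    Integrable (fun E : ℝ => (-Complex.I * (z - E))⁻¹) m :=
  Integrable.of_bound (Lz_meas z).aestronglyMeasurable z.im⁻¹
    (Eventually.of_forall fun E => Lz_bd hz E)

theorem Lz_diff (m : Measure ℝ) [IsFiniteMeasure m] :
    DifferentiableOn ℂ (Lz m) {z | 0 < z.im} := by
  intro z hz
  have hz' : 0 < z.im := hz
  have hs : Metric.ball z (z.im / 2) ∈ 𝓝 z := Metric.ball_mem_nhds z (by positivity)
  have him : ∀ w ∈ Metric.ball z (z.im / 2), z.im / 2 < w.im := by
    intro w hw
    have h1 : |(w - z).im| ≤ ‖w - z‖ := Complex.abs_im_le_norm _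
    rw [Metric.mem_ball, dist_eq_norm] at hw
    have h2 := neg_abs_le (w - z).im
    rw [Complex.sub_im] at h1 h2
    linarith
  have h := hasDerivAt_integral_of_dominated_loc_of_deriv_le (μ := m) (𝕜 := ℂ)
    (F := fun w (E : ℝ) => (-Complex.I * (w - E))⁻¹)
    (F' := fun w (E : ℝ) => -(-Complex.I) / (-Complex.I * (w - E)) ^ 2) (x₀ := z)
    (bound := fun _ => ((z.im / 2) ^ 2)⁻¹) hs
    (Eventually.of_forall fun w => (Lz_meas w).aestronglyMeasurable) (Lz_int m hz')
    ((by fun_prop : Measurable fun E : ℝ =>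
      -(-Complex.I) / (-Complex.I * (z - E)) ^ 2).aestronglyMeasurable)
    (Eventually.of_forall fun E w hw => ?_) (integrable_const _)
    (Eventually.of_forall fun E w hw => ?_)
  · exact h.2.differentiableAt.differentiableWithinAt
  · have h1 := him w hw
    have h2 := im_le w E
    rw [norm_div, norm_neg, norm_neg, Complex.norm_I, norm_pow, one_div]
    refine inv_anti₀ (by positivity) (pow_le_pow_left₀ (by positivity) ?_ 2)
    linarith
  · have h1 := him w hw
    have h2 := ne0 (z := w) (by linarith) E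
    have h3 : HasDerivAt (fun w : ℂ => -Complex.I * (w - E)) (-Complex.I) w := by
      simpa using ((hasDerivAt_id w).sub_const (E : ℂ)).const_mul (-Complex.I)
    exact h3.inv h2

theorem Lz_re {m : Measure ℝ} [IsFiniteMeasure m] {z : ℂ} (hz : 0 < z.im) :
    (Lz m z).re = ∫ E : ℝ, z.im / Complex.normSq (-Complex.I * (z - E)) ∂m := by
  unfold Lz
  have h8 := integral_re (Lz_int m hz)
  rw [RCLike.re_to_complex] at h8
  rw [← h8]
  refine integral_congr_ae (Eventually.of_forall fun E' => ?_)
  simp only [RCLike.re_to_complex]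
  rw [Complex.inv_re]
  simp

theorem Lz_re_nonneg {m : Measure ℝ} [IsFiniteMeasure m] {z : ℂ} (hz : 0 < z.im) :
    0 ≤ (Lz m z).re := by
  rw [Lz_re hz]
  exact integral_nonneg fun E => div_nonneg hz.le (Complex.normSq_nonneg _)

theorem Lz_re_pos {m : Measure ℝ} [IsFiniteMeasure m] (hm : m ≠ 0) {z : ℂ} (hz : 0 < z.im) :
    0 < (Lz m z).re := by
  rw [Lz_re hz]
  have hpos : ∀ E : ℝ, 0 < z.im / Complex.normSq (-Complex.I * (z - E)) := fun E =>
    div_pos hz (Complex.normSq_pos.2 (ne0 hz E))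
  have hi : Integrable (fun E : ℝ => z.im / Complex.normSq (-Complex.I * (z - E))) m := by
    have h := (Lz_int m hz).re
    refine h.congr (Eventually.of_forall fun E => ?_)
    simp only [RCLike.re_to_complex]
    rw [Complex.inv_re]
    simp
  rw [integral_pos_iff_support_of_nonneg (fun E => (hpos E).le) hi]
  have : Function.support (fun E : ℝ => z.im / Complex.normSq (-Complex.I * (z - E))) = univ := by
    ext E
    simp only [Function.mem_support, mem_univ, iff_true]
    exact (hpos E).ne'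
  rw [this]
  exact Measure.measure_univ_pos.2 hm

/-- the Borel transform tends to zero under translations -/
theorem Lz_far (m : Measure ℝ) [IsFiniteMeasure m] {z : ℂ} (hz : 0 < z.im) {lam : ℝ}
    (hl : lam ≠ 0) : Tendsto (fun n : ℕ => Lz m (z - (n * lam : ℝ))) atTop (𝓝 0) := by
  have him : ∀ n : ℕ, (z - ((n * lam : ℝ) : ℂ)).im = z.im := fun n => by simp
  have h : Tendsto (fun n : ℕ => ∫ E : ℝ, (-Complex.I * ((z - ((n * lam : ℝ) : ℂ)) - E))⁻¹ ∂m)
      atTop (𝓝 (∫ _ : ℝ, (0 : ℂ) ∂m)) := by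
    refine tendsto_integral_of_dominated_convergence (fun _ => z.im⁻¹)
      (fun n => (Lz_meas _).aestronglyMeasurable) (integrable_const _)
      (fun n => Eventually.of_forall fun E => ?_) (Eventually.of_forall fun E => ?_)
    · have := Lz_bd (z := z - ((n * lam : ℝ) : ℂ)) (by rw [him]; exact hz) E
      rwa [him] at this
    · rw [tendsto_zero_iff_norm_tendsto_zero]
      simp only [norm_inv]
      refine Tendsto.inv_tendsto_atTop ?_
      have h1 : Tendsto (fun n : ℕ => (n : ℝ) * |lam| - ‖z - E‖) atTop atTop :=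
        tendsto_atTop_add_const_right _ _
          ((tendsto_natCast_atTop_atTop).atTop_mul_const (abs_pos.2 hl))
      refine tendsto_atTop_mono (fun n => ?_) h1
      rw [norm_mul, norm_neg, Complex.norm_I, one_mul]
      have h2 : ‖((n * lam : ℝ) : ℂ)‖ = (n : ℝ) * |lam| := by
        rw [Complex.norm_real, Real.norm_eq_abs, abs_mul, Nat.abs_cast]
      rw [← h2]
      have h3 := norm_sub_norm_le ((n * lam : ℝ) : ℂ) (z - E)
      refine h3.trans (le_of_eq ?_)
      rw [← norm_neg]
      congr 1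
      ring
  rw [integral_zero] at h
  exact h

/-- the Laplace transform of a Fourier transform -/
theorem LT_eq {m : Measure ℝ} [IsFiniteMeasure m] {a : ℝ → ℂ}
    (ha : ∀ t : ℝ, a t = ∫ E : ℝ, Complex.exp (-(Complex.I * t * E)) ∂m) (E : ℝ) {ε : ℝ}
    (hε : 0 < ε) : Pool.Agent.K7.H83.SI.LT a E ε = Lz m (E + ε * Complex.I) := by
  have h1 : Pool.Agent.K7.H83.SI.LT a E ε = ∫ t in Set.Ioi (0 : ℝ), ∫ E' : ℝ, kr E ε t * ex t E' ∂m := by
    unfold Pool.Agent.K7.H83.SI.LT
    refine integral_congr_ae (Eventually.of_forall fun t => ?_)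
    simp only [ha t]
    rw [← integral_const_mul]
    rfl
  have hint : Integrable (Function.uncurry fun (t : ℝ) (E' : ℝ) => kr E ε t * ex t E')
      ((volume.restrict (Set.Ioi (0 : ℝ))).prod m) := by
    have h2 : Integrable (fun p : ℝ × ℝ => Real.exp (-ε * p.1) * 1)
        ((volume.restrict (Set.Ioi (0 : ℝ))).prod m) :=
      (exp_intble hε).mul_prod (integrable_const (1 : ℝ))
    refine h2.mono' ?_ (Eventually.of_forall fun p => ?_)
    · refine Continuous.aestronglyMeasurable ?_
      unfold Function.uncurry kr ex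
      fun_prop
    · simp only [Function.uncurry]
      rw [norm_mul, norm_kr, norm_ex]
  rw [h1, integral_integral_swap hint]
  unfold Lz
  refine integral_congr_ae (Eventually.of_forall fun E' => ?_)
  show ∫ t in Set.Ioi (0 : ℝ), kr E ε t * ex t E' = (-Complex.I * ((E + ε * Complex.I) - E'))⁻¹
  have h4 : ∀ t : ℝ, kr E ε t * ex t E' =
      Complex.exp ((Complex.I * (E - E') - ε) * t) := by
    intro t
    unfold kr ex
    rw [← Complex.exp_add]
    congr 1
    ring
  simp_rw [h4]
  rw [integral_exp_mul_complex_Ioi (by simp [hε])]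
  have h5 : (Complex.I * ((E : ℂ) - E') - ε) ≠ 0 := by
    intro h0
    have := congrArg Complex.re h0
    simp at this
    exact hε.ne' this
  have h6 : -Complex.I * ((E + ε * Complex.I) - E') = -(Complex.I * ((E : ℂ) - E') - ε) := by
    linear_combination (-(ε : ℂ)) * Complex.I_sq
  rw [h6]
  simp only [Complex.ofReal_zero, mul_zero, Complex.exp_zero]
  rw [inv_neg, ← one_div, neg_div]

end Pool.Agent.H988.RS
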