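import Pool.Agent.H988.RS.Avg
import Pool.Agent.H988.WM.Tw

/-! # Spectral measures and intertwining operators -/

set_option autoImplicit false

open MeasureTheory Filter Topology Set
open scoped ENNReal NNReal InnerProductSpace ComplexConjugate

namespace Pool.Agent.H988.RS

open Pool.Agent.K7.H83.SI Pool.Agent.H5R2.NB Pool.Agent.H988.WM

theorem sqa_le (a b : ℝ≥0∞) : (a + b) ^ 2 ≤ 2 * a ^ 2 + 2 * b ^ 2 := by
  rcases eq_or_ne a ∞ with rfl | ha
  · simp
  rcases eq_or_ne b ∞ with rfl | hb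
  · simp
  lift a to ℝ≥0 using ha
  lift b to ℝ≥0 using hb
  norm_cast
  rw [← NNReal.coe_le_coe]
  push_cast
  nlinarith [sq_nonneg ((a : ℝ) - b)]

theorem enorm_Lp {m : Measure ℝ} (g : Lp ℂ 2 m) : ‖g‖ₑ ^ 2 = ∫⁻ E, ‖g E‖ₑ ^ 2 ∂m := by
  rw [Lp.enorm_def]
  have h3 := eLpNorm_nnreal_pow_eq_lintegral (f := (g : ℝ → ℂ)) (μ := m) (p := 2) two_ne_zero
  have h4 : ((2 : ℝ≥0) : ℝ≥0∞) = 2 := rfl
  have h5 : ((2 : ℝ≥0) : ℝ) = 2 := rfl
  rw [h4, h5] at h3
  simp only [ENNReal.rpow_two] at h3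
  exact h3

/-- trigonometric polynomials -/
noncomputable def pol (a : ℝ →₀ ℂ) (E : ℝ) : ℂ := a.sum fun t c => c * ex t E

theorem pol_zero : pol 0 = fun _ => (0 : ℂ) := by
  funext E
  unfold pol
  exact Finsupp.sum_zero_index

theorem pol_add (a b : ℝ →₀ ℂ) : pol (a + b) = fun E => pol a E + pol b E := by
  funext E
  unfold pol
  exact Finsupp.sum_add_index' (fun t => zero_mul _) (fun t c c' => add_mul _ _ _)

theorem pol_single (t : ℝ) (c : ℂ) : pol (Finsupp.single t c) = fun E => c * ex t E := by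
  funext E
  unfold pol
  exact Finsupp.sum_single_index (zero_mul _)

theorem pol_lc (m : Measure ℝ) [IsFiniteMeasure m] (a : ℝ →₀ ℂ) :
    (Finsupp.linearCombination ℂ (eLp m) a : Lp ℂ 2 m) =ᵐ[m] pol a := by
  induction a using Finsupp.induction_linear with
  | zero =>
    rw [map_zero, pol_zero]
    exact Lp.coeFn_zero ℂ 2 m
  | add f g hf hg =>
    rw [map_add, pol_add]
    filter_upwards [Lp.coeFn_add (Finsupp.linearCombination ℂ (eLp m) f)
      (Finsupp.linearCombination ℂ (eLp m) g), hf, hg] with E h1 h2 h3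
    rw [h1, Pi.add_apply, h2, h3]
  | single s c =>
    rw [Finsupp.linearCombination_single, pol_single]
    filter_upwards [Lp.coeFn_smul c (eLp m s), eLp_coe m s] with E h1 h2
    rw [h1, Pi.smul_apply, h2, smul_eq_mul]

variable {X : Type} [NormedAddCommGroup X] [InnerProductSpace ℂ X] [CompleteSpace X]

theorem pol_TT (W : UG X) (v : X) (a : ℝ →₀ ℂ) :
    ∫⁻ E, ‖pol a E‖ₑ ^ 2 ∂(sm W v) = ‖TT' W v a‖ₑ ^ 2 := by
  have h1 : ‖SS W v a‖ₑ ^ 2 = ∫⁻ E, ‖pol a E‖ₑ ^ 2 ∂(sm W v) := by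
    rw [enorm_Lp]
    refine lintegral_congr_ae ?_
    filter_upwards [pol_lc (sm W v) a] with E hE
    have h2 : (SS W v a : ℝ → ℂ) E = pol a E := hE
    rw [h2]
  rw [← h1, ← ofReal_norm, ← ofReal_norm, norm_SS]

/-- intertwining operators do not increase the null sets -/
theorem nul_inter {W W' : UG X} {B : X →L[ℂ] X} (hB : ∀ t u, B (W.U t u) = W'.U t (B u))
    {S : Set ℝ} (hS : MeasurableSet S) {u : X} (hu : sm W u S = 0) : sm W' (B u) S = 0 := by
  set m1 := sm W u with hm1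
  set m2 := sm W' (B u) with hm2
  set m := m1 + m2 with hm
  set f : Lp ℂ 2 m := indicatorConstLp 2 hS (measure_ne_top _ _) (1 : ℂ) with hf
  have hfc : f =ᵐ[m] S.indicator fun _ => (1 : ℂ) := indicatorConstLp_coeFn
  have hmem : f ∈ closure (Set.range (Finsupp.linearCombination ℂ (eLp m))) := by
    have h1 : (LinearMap.range (Finsupp.linearCombination ℂ (eLp m))).topologicalClosure = ⊤ := by
      rw [Finsupp.range_linearCombination]
      exact span_eLp _
    have h2 : f ∈ (LinearMap.range (Finsupp.linearCombination ℂ (eLp m))).topologicalClosure := by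
      rw [h1]; exact Submodule.mem_top
    exact h2
  obtain ⟨y, hy, hyf⟩ := mem_closure_iff_seq_limit.1 hmem
  choose a ha using hy
  have hlim : Tendsto (fun n => ‖y n - f‖ₑ ^ 2) atTop (𝓝 0) := by
    have h1 := (tendsto_iff_norm_sub_tendsto_zero.1 hyf)
    have h2 : Tendsto (fun n => ENNReal.ofReal (‖y n - f‖)) atTop (𝓝 0) := by
      have := ENNReal.tendsto_ofReal h1
      rwa [ENNReal.ofReal_zero] at this
    have h3 := ((ENNReal.continuous_pow 2).tendsto 0).comp h2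
    simpa [Function.comp_def] using h3
  set g : ℝ → ℂ := S.indicator fun _ => (1 : ℂ) with hg
  have hd : ∀ n, ∫⁻ E, ‖pol (a n) E - g E‖ₑ ^ 2 ∂m = ‖y n - f‖ₑ ^ 2 := by
    intro n
    rw [enorm_Lp]
    refine lintegral_congr_ae ?_
    filter_upwards [pol_lc m (a n), hfc, Lp.coeFn_sub (y n) f] with E h1 h2 h3
    rw [h3, Pi.sub_apply, h2, ← ha n, h1]
  have hd1 : ∀ n, ∫⁻ E, ‖pol (a n) E - g E‖ₑ ^ 2 ∂m1 ≤ ‖y n - f‖ₑ ^ 2 := fun n => by
    rw [← hd n]
    exact lintegral_mono' (Measure.le_add_right le_rfl) le_rfl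
  have hd2 : ∀ n, ∫⁻ E, ‖pol (a n) E - g E‖ₑ ^ 2 ∂m2 ≤ ‖y n - f‖ₑ ^ 2 := fun n => by
    rw [← hd n]
    exact lintegral_mono' (Measure.le_add_left le_rfl) le_rfl
  -- on the first measure the indicator vanishes
  have hg0 : ∀ᵐ E ∂m1, g E = 0 := by
    have h1 : ∀ᵐ E ∂m1, E ∉ S := measure_eq_zero_iff_ae_notMem.1 hu
    filter_upwards [h1] with E hE
    exact Set.indicator_of_notMem hE _
  have hp1 : ∀ n, ‖TT' W u (a n)‖ₑ ^ 2 ≤ ‖y n - f‖ₑ ^ 2 := by
    intro n
    rw [← pol_TT]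
    refine le_trans (le_of_eq ?_) (hd1 n)
    refine lintegral_congr_ae ?_
    filter_upwards [hg0] with E hE
    rw [hE, sub_zero]
  have hTT : ∀ n, TT' W' (B u) (a n) = B (TT' W u (a n)) := by
    intro n
    unfold TT'
    rw [Finsupp.linearCombination_apply, Finsupp.linearCombination_apply, Finsupp.sum, Finsupp.sum,
      map_sum]
    refine Finset.sum_congr rfl fun t _ => ?_
    rw [map_smul, hB]
  have hp2 : ∀ n, ∫⁻ E, ‖pol (a n) E‖ₑ ^ 2 ∂m2 ≤ ‖B‖ₑ ^ 2 * ‖y n - f‖ₑ ^ 2 := by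
    intro n
    rw [hm2, pol_TT, hTT]
    calc ‖B (TT' W u (a n))‖ₑ ^ 2 ≤ (‖B‖ₑ * ‖TT' W u (a n)‖ₑ) ^ 2 := by
          gcongr
          exact B.le_opENorm _
      _ = ‖B‖ₑ ^ 2 * ‖TT' W u (a n)‖ₑ ^ 2 := mul_pow _ _ _
      _ ≤ ‖B‖ₑ ^ 2 * ‖y n - f‖ₑ ^ 2 := mul_le_mul' le_rfl (hp1 n)
  have hmS : m2 S ≤ 0 := by
    have h1 : ∀ n, m2 S ≤ 2 * ‖y n - f‖ₑ ^ 2 + 2 * (‖B‖ₑ ^ 2 * ‖y n - f‖ₑ ^ 2) := by
      intro n
      have hme : Measurable (pol (a n)) := by
        unfold pol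
        refine Finset.measurable_fun_sum _ fun t _ => ?_
        exact ((ex_cont t).measurable).const_mul _
      have hgm : Measurable g := measurable_const.indicator hS
      calc m2 S = ∫⁻ E, ‖g E‖ₑ ^ 2 ∂m2 := by
            have e : ∀ E, ‖g E‖ₑ ^ 2 = S.indicator (fun _ => (1 : ℝ≥0∞)) E := by
              intro E
              by_cases hE : E ∈ S
              · simp [hg, hE]
              · simp [hg, hE]
            simp only [e]
            rw [lintegral_indicator hS, setLIntegral_const, one_mul]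
        _ ≤ ∫⁻ E, (2 * ‖pol (a n) E - g E‖ₑ ^ 2 + 2 * ‖pol (a n) E‖ₑ ^ 2) ∂m2 := by
            refine lintegral_mono fun E => ?_
            have e : g E = -(pol (a n) E - g E) + pol (a n) E := by ring
            calc ‖g E‖ₑ ^ 2 = ‖-(pol (a n) E - g E) + pol (a n) E‖ₑ ^ 2 := by rw [← e]
              _ ≤ 2 * ‖-(pol (a n) E - g E)‖ₑ ^ 2 + 2 * ‖pol (a n) E‖ₑ ^ 2 := by
                  refine (pow_le_pow_left₀ zero_le (enorm_add_le _ _) 2).trans ?_
                  exact sqa_le _ _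
              _ = _ := by rw [enorm_neg]
        _ = 2 * ∫⁻ E, ‖pol (a n) E - g E‖ₑ ^ 2 ∂m2 + 2 * ∫⁻ E, ‖pol (a n) E‖ₑ ^ 2 ∂m2 := by
            rw [lintegral_add_right _ ((hme.enorm.pow_const 2).const_mul 2),
              lintegral_const_mul' _ _ (by simp), lintegral_const_mul' _ _ (by simp)]
        _ ≤ 2 * ‖y n - f‖ₑ ^ 2 + 2 * (‖B‖ₑ ^ 2 * ‖y n - f‖ₑ ^ 2) := by
            gcongr
            · exact hd2 n
            · exact hp2 n
    have hBt : ‖B‖ₑ ^ 2 ≠ ∞ := ENNReal.pow_ne_top enorm_ne_top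
    have h2 : Tendsto (fun n => 2 * ‖y n - f‖ₑ ^ 2 + 2 * (‖B‖ₑ ^ 2 * ‖y n - f‖ₑ ^ 2)) atTop
        (𝓝 (2 * 0 + 2 * (‖B‖ₑ ^ 2 * 0))) :=
      (ENNReal.Tendsto.const_mul hlim (Or.inr (by norm_num))).add
        (ENNReal.Tendsto.const_mul (ENNReal.Tendsto.const_mul hlim (Or.inr hBt))
          (Or.inr (by norm_num)))
    rw [mul_zero, mul_zero, mul_zero, add_zero] at h2
    exact ge_of_tendsto' h2 h1
  exact le_antisymm hmS bot_le

/-- the group with the generator shifted by `μ` -/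
noncomputable def tw (μ : ℝ) (W : UG X) : UG X where
  U t := ph μ t • W.U t
  zero' x := by
    show ph μ 0 • W.U 0 x = x
    rw [ph_zero, one_smul, W.zero']
  add' s t x := by
    show ph μ (s + t) • W.U (s + t) x = ph μ s • W.U s (ph μ t • W.U t x)
    rw [map_smul, smul_smul, ph_add, W.add']
  norm' t x := by
    show ‖ph μ t • W.U t x‖ = ‖x‖
    rw [norm_smul, ph_norm, one_mul, W.norm']
  cont' x := (ph_cont μ).smul (W.cont' x)

theorem tw_U (μ : ℝ) (W : UG X) (t : ℝ) (x : X) : (tw μ W).U t x = ph μ t • W.U t x := rfl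

theorem sm_tw (μ : ℝ) (W : UG X) (u : X) : sm (tw μ W) u = (sm W u).map (fun E => E + μ) := by
  have hm : Measurable fun E : ℝ => E + μ := by fun_prop
  refine sm_eq ⟨Measure.isFiniteMeasure_map _ _, fun t => ?_⟩
  rw [integral_map hm.aemeasurable (by fun_prop), tw_U, inner_smul_right, sm_inner,
    ← integral_const_mul]
  refine integral_congr_ae (Eventually.of_forall fun E => ?_)
  simp only [ph]
  rw [← Complex.exp_add]
  congr 1
  push_cast
  ring

/-- **translation of the spectrum by an eigenoperator** -/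
theorem nul_shift {W : UG X} {B : X →L[ℂ] X} {μ : ℝ}
    (hB : ∀ t u, B (W.U t u) = ph μ (-t) • W.U t (B u)) {S : Set ℝ} (hS : MeasurableSet S) {u : X}
    (hu : u ∈ nul W S) : B u ∈ nul W {E | E - μ ∈ S} := by
  have h1 : ∀ t u, B ((tw μ W).U t u) = W.U t (B u) := by
    intro t u
    rw [tw_U, map_smul, hB, smul_smul, ph_mul_neg, one_smul]
  have hm : Measurable fun E : ℝ => E - μ := by fun_prop
  have hm' : Measurable fun E : ℝ => E + μ := by fun_prop
  have hS' : MeasurableSet {E : ℝ | E - μ ∈ S} := hm hS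
  refine mem_nul.2 (nul_inter h1 hS' ?_)
  rw [sm_tw, Measure.map_apply hm' hS']
  have e : (fun E : ℝ => E + μ) ⁻¹' {E : ℝ | E - μ ∈ S} = S := by
    ext E
    simp
  rw [e]
  exact mem_nul.1 hu

end Pool.Agent.H988.RS
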