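import Pool.Agent.H988.RS.Ope
import Pool.Agent.H988.WM.Mai

/-! # The averages with a phase tend to zero for all states -/

set_option autoImplicit false
set_option linter.unusedSectionVars false

open MeasureTheory Filter Topology Set
open scoped ENNReal NNReal InnerProductSpace ComplexConjugate

namespace Pool.Agent.H988.RS

open Pool.Agent.TH980.IM Pool.Agent.H5R2
open Pool.Agent.Y662.ERG
open Pool.Agent.TH980.IM.PR
open Pool.Agent.R988.NQ
open Pool.Agent.H988.WM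

section off

variable {d : ℕ} {c o : ℝ} {ev : (NB.Site d → ℝ) → NB.UG (L2 d)}

theorem ev_off (hev : ∀ ω : NB.Site d → ℝ, NB.IsGrp c (fun x => o + ω x) (ev ω)) :
    ∀ V, NB.IsGrp c V (ev (shf o V)) := by
  intro V
  have h := hev (shf o V)
  have e : (fun x => o + shf o V x) = V := by
    funext x
    unfold shf
    ring
  rwa [e] at h

instance prob_off (ν : Measure ℝ) [IsProbabilityMeasure ν] (o : ℝ) :
    IsProbabilityMeasure (ν.map fun r : ℝ => o + r) :=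
  Measure.isProbabilityMeasure_map (by fun_prop : Measurable (fun r : ℝ => o + r)).aemeasurable

theorem map_ac {ν : Measure ℝ} (hν : ν ≪ volume) (o : ℝ) : (ν.map fun r : ℝ => o + r) ≪ volume := by
  have hg : Measurable (fun r : ℝ => o + r) := by fun_prop
  have h := hν.map hg
  rwa [(measurePreserving_add_left (volume : Measure ℝ) o).map_eq] at h

theorem no_atom {ν : Measure ℝ} (hν : ν ≪ volume) (r : ℝ) : ν {r} = 0 := hν (by simp)

/-- from the law without the constant to the law with the constant -/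
theorem ae_off (ν : Measure ℝ) [IsProbabilityMeasure ν] (o : ℝ) {Q : (NB.Site d → ℝ) → Prop}
    (h : ∀ᵐ V ∂(NB.PP d (ν.map fun r : ℝ => o + r)), Q (shf o V)) : ∀ᵐ ω ∂(NB.PP d ν), Q ω := by
  set e : (NB.Site d → ℝ) ≃ᵐ (NB.Site d → ℝ) :=
    MeasurableEquiv.addLeft (fun _ : NB.Site d => o) with he
  have hse : ∀ ω, shf o (e ω) = ω := by
    intro ω
    have hei : e ω = fun x => o + ω x := rfl
    rw [hei]
    funext x
    unfold shf
    ring
  have hg : Measurable (fun r : ℝ => o + r) := by fun_prop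
  have hmap : (NB.PP d ν).map e = NB.PP d (ν.map fun r : ℝ => o + r) := by
    unfold NB.PP
    exact Measure.infinitePi_map_pi (μ := fun _ : NB.Site d => ν) (fun _ => hg)
  rw [← hmap, e.measurableEmbedding.ae_map_iff] at h
  filter_upwards [h] with ω hω
  rwa [hse] at hω

/-- from the law with the constant to the law without the constant -/
theorem ae_off' (ν : Measure ℝ) [IsProbabilityMeasure ν] (o : ℝ) {Q : (NB.Site d → ℝ) → Prop}
    (h : ∀ᵐ ω ∂(NB.PP d ν), Q ω) : ∀ᵐ V ∂(NB.PP d (ν.map fun r : ℝ => o + r)), Q (shf o V) := by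
  set e : (NB.Site d → ℝ) ≃ᵐ (NB.Site d → ℝ) :=
    MeasurableEquiv.addLeft (fun _ : NB.Site d => o) with he
  have hse : ∀ ω, shf o (e ω) = ω := by
    intro ω
    have hei : e ω = fun x => o + ω x := rfl
    rw [hei]
    funext x
    unfold shf
    ring
  have hg : Measurable (fun r : ℝ => o + r) := by fun_prop
  have hmap : (NB.PP d ν).map e = NB.PP d (ν.map fun r : ℝ => o + r) := by
    unfold NB.PP
    exact Measure.infinitePi_map_pi (μ := fun _ : NB.Site d => ν) (fun _ => hg)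
  rw [← hmap, e.measurableEmbedding.ae_map_iff]
  filter_upwards [h] with ω hω
  rwa [hse]

theorem good_off (hev : ∀ ω : NB.Site d → ℝ, NB.IsGrp c (fun x => o + ω x) (ev ω))
    (ν : Measure ℝ) [IsProbabilityMeasure ν] (hν : ν ≪ volume) {μ : ℝ} (hμ : μ ≠ 0) :
    ∀ᵐ ω ∂(NB.PP d ν), GoodW (ev ω) μ := by
  exact ae_off ν o (goodW_ae (ev_off hev) (ν.map fun r : ℝ => o + r) (map_ac hν o) hμ)

end off

section van

variable {d : ℕ} {ev : (NB.Site d → ℝ) → NB.UG (L2 d)}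

/-- both notions of spectral measure -/
theorem sm_spm {K : ℝ} {ω : NB.Site d → ℝ} (hω : ∀ x, |ω x| ≤ K)
    {W : NB.UG (L2 d)} (hW : NB.IsGrp (-1) (fun x => 2 * d + ω x) W) (u : L2 d) :
    Pool.Agent.K7.H83.SI.sm W u = spm (HV_sa K ω) u := by
  refine Pool.Agent.K7.H83.SI.sm_eq ⟨inferInstance, fun t => ?_⟩
  rw [grp_Ex hω hW, Ex_spm]

/-- along subsequences, the averages with a phase tend to zero -/
theorem vanT0 {v : (NB.Site d → ℝ) → L2 d →L[ℂ] L2 d} {M : ℝ} (hd : 1 ≤ d) {K : ℝ}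
    {ν : Measure ℝ} [IsProbabilityMeasure ν]
    (hK : ∀ᵐ r ∂ν, |r| ≤ K) (hac : ν ≪ volume)
    (hev : ∀ ω : NB.Site d → ℝ, NB.IsGrp (-1) (fun x => 2 * d + ω x) (ev ω)) (hO : Obs d v M)
    {μ : ℝ} (hμ : μ ≠ 0) (Mk : ℕ → ℕ) (hMk : Tendsto Mk atTop atTop) :
    ∃ a : ℕ → ℕ, StrictMono a ∧ ∀ᵐ ω ∂(NB.PP d ν), GoodT μ (ev ω) (v ω) (Mk ∘ a) 0 := by
  have hν : ∀ r : ℝ, ν {r} ≠ 1 := fun r => by
    rw [no_atom hac]
    exact zero_ne_one
  obtain ⟨a, ha, hG⟩ := vanT hd hK hν hev hO hμ Mk hMk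
  refine ⟨a, ha, ?_⟩
  have hNk : Tendsto (Mk ∘ a) atTop atTop := hMk.comp ha.tendsto_atTop
  filter_upwards [hG, good_off hev ν hac hμ, bd_ae (d := d) hK] with ω ⟨B, hB, hB0⟩ h1 h2
  have h3 : B = 0 := by
    refine kill_all (good_comm hNk hB) h1 fun u hu => hB0 u ?_
    rwa [← sm_spm h2 (hev ω)]
  rw [← h3]
  exact hB

/-- local observables: the averages with a phase tend to zero in mean square -/
theorem van_int0 {v : (NB.Site d → ℝ) → L2 d →L[ℂ] L2 d} {M : ℝ} (hd : 1 ≤ d) {K : ℝ}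
    {ν : Measure ℝ} [IsProbabilityMeasure ν]
    (hK : ∀ᵐ r ∂ν, |r| ≤ K) (hac : ν ≪ volume)
    (hev : ∀ ω : NB.Site d → ℝ, NB.IsGrp (-1) (fun x => 2 * d + ω x) (ev ω)) (hO : Obs d v M)
    {μ : ℝ} (hμ : μ ≠ 0)
    (ψ : (NB.Site d → ℝ) → L2 d) (R : ℝ) (hψ : AEStronglyMeasurable ψ (NB.PP d ν))
    (hR : ∀ V, ‖ψ V‖ ≤ R) :
    Tendsto (fun N : ℕ => ∫⁻ ω, ‖av μ id (ev ω) (v ω) N (ψ ω)‖ₑ ^ 2 ∂(NB.PP d ν))
      atTop (𝓝 0) := by
  have : IsProbabilityMeasure (NB.PP d ν) := by unfold NB.PP; infer_instance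
  have hR0 : 0 ≤ R := (norm_nonneg _).trans (hR 0)
  have hme := fun N : ℕ => av_aesm (ν := ν) hev hO μ hψ N
  refine tendsto_of_subseq_tendsto ?_
  intro Mk hMk
  obtain ⟨a, ha, hG⟩ := vanT0 hd hK hac hev hO hμ Mk hMk
  refine ⟨a, ?_⟩
  have hbd : ∀ N ω, ‖av μ id (ev ω) (v ω) N (ψ ω)‖ ≤ M * R := by
    intro N ω
    refine (av_norm μ id (ev ω) (v ω) N (ψ ω)).trans ?_
    exact mul_le_mul (hO.opn ω) (hR ω) (norm_nonneg _) hO.nn
  have key : Tendsto (fun k => ∫⁻ ω, ‖av μ id (ev ω) (v ω) (Mk (a k)) (ψ ω)‖ₑ ^ 2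
      ∂(NB.PP d ν)) atTop (𝓝 (∫⁻ _V, 0 ∂(NB.PP d ν))) := by
    refine tendsto_lintegral_of_dominated_convergence'
      (fun _ => ENNReal.ofReal ((M * R) ^ 2)) (fun k => ?_) (fun k => ?_) ?_ ?_
    · exact (hme _).enorm.pow_const 2
    · refine Eventually.of_forall fun ω => ?_
      show ‖av μ id (ev ω) (v ω) (Mk (a k)) (ψ ω)‖ₑ ^ 2 ≤ ENNReal.ofReal ((M * R) ^ 2)
      rw [← ofReal_norm, ← ENNReal.ofReal_pow (norm_nonneg _)]
      exact ENNReal.ofReal_le_ofReal (pow_le_pow_left₀ (norm_nonneg _) (hbd _ _) 2)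
    · rw [lintegral_const]
      simp
    · filter_upwards [hG] with ω hB
      have h4 := (hB (ψ ω)).1
      rw [zero_apply] at h4
      have h5 := h4.enorm
      rw [enorm_zero] at h5
      have h6 := (ENNReal.continuous_pow 2).tendsto 0 |>.comp h5
      simpa [Function.comp_def] using h6
  simpa using key

/-- symmetric fields -/
theorem van_sym0 (hd : 1 ≤ d) {K : ℝ} {ν : Measure ℝ} [IsProbabilityMeasure ν]
    (hK : ∀ᵐ r ∂ν, |r| ≤ K) (hac : ν ≪ volume)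
    (hev : ∀ ω : NB.Site d → ℝ, NB.IsGrp (-1) (fun x => 2 * d + ω x) (ev ω))
    {w : OF d} {β : ℝ} (hw : Fld β w) (sw : Sym w) {μ : ℝ} (hμ : μ ≠ 0)
    {P : OF d} (hP : Fld 1 P) (sP : Sym P) :
    Tendsto (fun N : ℕ => ∫⁻ ω, ‖av μ id (ev ω) (w ω) N (P ω (NB.dl 0))‖ₑ ^ 2 ∂(NB.PP d ν))
      atTop (𝓝 0) := by
  rw [ENNReal.tendsto_nhds_zero]
  intro ε hε
  have hε4 : 0 < ε / 4 := ENNReal.div_pos hε.ne' (by norm_num)
  obtain ⟨v, M, hO, hv⟩ := Pool.Agent.R988.NQ.approx (ν := ν) hw sw (ε / 4) hε4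
  have hβ : 0 ≤ β := by
    have h1 := hw.bd 0 (NB.dl 0)
    rw [NB.STAT.norm_dl, mul_one] at h1
    exact (norm_nonneg _).trans h1
  have h1 := van_int0 hd hK hac hev hO hμ (fun ω => P ω (NB.dl 0)) 1 hP.sm.aestronglyMeasurable
    (fun V => hP.nb V)
  have h2 := (ENNReal.tendsto_nhds_zero.1 h1) (ε / 4) hε4
  have hD : Fld (M + β) (subF v w) := (obs_fld hO).sub hw
  have sD : Sym (subF v w) := Sym.sub hO.symm sw
  filter_upwards [h2, eventually_gt_atTop 0] with N hN hN0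
  have h3 := contrT (ν := ν) μ hev (add_nonneg hO.nn hβ) hD hD sD.adj hP sP N hN0
  have hpt : ∀ ω, ‖av μ id (ev ω) (w ω) N (P ω (NB.dl 0))‖ₑ ^ 2 ≤
      2 * ‖av μ id (ev ω) (v ω) N (P ω (NB.dl 0))‖ₑ ^ 2 +
        2 * ‖av μ id (ev ω) (subF v w ω) N (P ω (NB.dl 0))‖ₑ ^ 2 := by
    intro ω
    have e : av μ id (ev ω) (w ω) N (P ω (NB.dl 0)) = av μ id (ev ω) (v ω) N (P ω (NB.dl 0)) +
        (-1 : ℂ) • av μ id (ev ω) (subF v w ω) N (P ω (NB.dl 0)) := by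
      rw [← av_smul, ← av_add]
      congr 1
      show w ω = v ω + (-1 : ℂ) • (v ω - w ω)
      module
    rw [e]
    refine (enorm_sq_add _ _).trans (le_of_eq ?_)
    rw [enorm_smul, enorm_neg, enorm_one, one_mul]
  have hm : AEMeasurable (fun ω => 2 * ‖av μ id (ev ω) (v ω) N (P ω (NB.dl 0))‖ₑ ^ 2)
      (NB.PP d ν) :=
    ((av_aesm hev hO μ hP.sm.aestronglyMeasurable N).enorm.pow_const 2).const_mul 2
  calc ∫⁻ ω, ‖av μ id (ev ω) (w ω) N (P ω (NB.dl 0))‖ₑ ^ 2 ∂(NB.PP d ν)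
      ≤ ∫⁻ ω, (2 * ‖av μ id (ev ω) (v ω) N (P ω (NB.dl 0))‖ₑ ^ 2 +
        2 * ‖av μ id (ev ω) (subF v w ω) N (P ω (NB.dl 0))‖ₑ ^ 2) ∂(NB.PP d ν) :=
        lintegral_mono hpt
    _ = 2 * ∫⁻ ω, ‖av μ id (ev ω) (v ω) N (P ω (NB.dl 0))‖ₑ ^ 2 ∂(NB.PP d ν) +
        2 * ∫⁻ ω, ‖av μ id (ev ω) (subF v w ω) N (P ω (NB.dl 0))‖ₑ ^ 2 ∂(NB.PP d ν) := by
        rw [lintegral_add_left' hm, lintegral_const_mul' _ _ (by simp),
          lintegral_const_mul' _ _ (by simp)]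
    _ ≤ 2 * (ε / 4) + 2 * (ε / 4) := by
        gcongr
        exact h3.trans hv
    _ = ε := by
        rw [← add_mul]
        have : (2 + 2 : ℝ≥0∞) = 4 := by norm_num
        rw [this, ENNReal.mul_div_cancel (by norm_num) (by norm_num)]

/-- general fields -/
theorem van_fld0 (hd : 1 ≤ d) {K : ℝ} {ν : Measure ℝ} [IsProbabilityMeasure ν]
    (hK : ∀ᵐ r ∂ν, |r| ≤ K) (hac : ν ≪ volume)
    (hev : ∀ ω : NB.Site d → ℝ, NB.IsGrp (-1) (fun x => 2 * d + ω x) (ev ω))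
    {A : OF d} {M : ℝ} (hA : Fld M A) (hA' : Fld M (adjF A)) {μ : ℝ} (hμ : μ ≠ 0)
    {P : OF d} (hP : Fld 1 P) (sP : Sym P) :
    Tendsto (fun N : ℕ => ∫⁻ ω, ‖av μ id (ev ω) (A ω) N (P ω (NB.dl 0))‖ₑ ^ 2 ∂(NB.PP d ν))
      atTop (𝓝 0) := by
  have hB : Fld (‖(2⁻¹ : ℂ)‖ * (M + M)) (reF A) := (hA.add hA').smul 2⁻¹
  have hC : Fld (‖(-(Complex.I * 2⁻¹) : ℂ)‖ * (M + M)) (imF A) :=
    (hA.sub hA').smul (-(Complex.I * 2⁻¹))
  have h1 := van_sym0 hd hK hac hev hB (sym_re A) hμ hP sP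
  have h2 := van_sym0 hd hK hac hev hC (sym_im A) hμ hP sP
  have h3 : Tendsto (fun N : ℕ =>
      2 * (∫⁻ ω, ‖av μ id (ev ω) (reF A ω) N (P ω (NB.dl 0))‖ₑ ^ 2 ∂(NB.PP d ν)) +
      2 * (∫⁻ ω, ‖av μ id (ev ω) (imF A ω) N (P ω (NB.dl 0))‖ₑ ^ 2 ∂(NB.PP d ν))) atTop (𝓝 0) := by
    have a1 := ENNReal.Tendsto.const_mul (a := 2) h1 (Or.inr (by norm_num))
    have a2 := ENNReal.Tendsto.const_mul (a := 2) h2 (Or.inr (by norm_num))
    simpa using a1.add a2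
  refine tendsto_of_tendsto_of_tendsto_of_le_of_le tendsto_const_nhds h3
    (fun _ => zero_le) fun N => ?_
  -- measurability
  have hm : AEMeasurable (fun ω => 2 * ‖av μ id (ev ω) (reF A ω) N (P ω (NB.dl 0))‖ₑ ^ 2)
      (NB.PP d ν) := by
    have hj : StronglyMeasurable (Function.uncurry fun (ω : NB.Site d → ℝ) (s : ℝ) =>
        g μ (ev ω) (reF A ω) (P ω (NB.dl 0)) s) := by
      have h5 : StronglyMeasurable (Function.uncurry fun (s : ℝ) (ω : NB.Site d → ℝ) =>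
          g μ (ev ω) (reF A ω) (P ω (NB.dl 0)) s) := by
        refine stronglyMeasurable_uncurry_of_continuous_of_stronglyMeasurable (fun V => ?_)
          (fun s => ?_)
        · exact g_cont μ _ _ _
        · exact ((fld_Uo hev (-s)).meas _ (hB.meas _ ((fld_Uo hev s).meas _ hP.sm))).const_smul
            (ph μ s)
      exact h5.comp_measurable measurable_swap
    have h6 : StronglyMeasurable fun ω : NB.Site d → ℝ => ∫ s in Ioc (0 : ℝ) N,
        g μ (ev ω) (reF A ω) (P ω (NB.dl 0)) s := hj.integral_prod_right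
    have h7 : (fun ω => av μ id (ev ω) (reF A ω) N (P ω (NB.dl 0))) = fun ω =>
        ((N : ℂ)⁻¹) • ∫ s in Ioc (0 : ℝ) N, g μ (ev ω) (reF A ω) (P ω (NB.dl 0)) s := by
      funext ω
      unfold av
      rw [intervalIntegral.integral_of_le (Nat.cast_nonneg N)]
      rfl
    have h8 : StronglyMeasurable fun ω => av μ id (ev ω) (reF A ω) N (P ω (NB.dl 0)) := by
      rw [h7]
      exact h6.const_smul ((N : ℂ)⁻¹)
    exact ((h8.enorm.pow_const 2).const_mul 2).aemeasurable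
  have hpt : ∀ ω, ‖av μ id (ev ω) (A ω) N (P ω (NB.dl 0))‖ₑ ^ 2 ≤
      2 * ‖av μ id (ev ω) (reF A ω) N (P ω (NB.dl 0))‖ₑ ^ 2 +
        2 * ‖av μ id (ev ω) (imF A ω) N (P ω (NB.dl 0))‖ₑ ^ 2 := by
    intro ω
    have e : av μ id (ev ω) (A ω) N (P ω (NB.dl 0)) =
        av μ id (ev ω) (reF A ω) N (P ω (NB.dl 0)) +
        Complex.I • av μ id (ev ω) (imF A ω) N (P ω (NB.dl 0)) := by
      rw [← av_smul, ← av_add]
      congr 1
      ext1 ψ
      exact re_im A ω ψ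
    rw [e]
    refine (enorm_sq_add _ _).trans (le_of_eq ?_)
    rw [enorm_smul, ← ofReal_norm Complex.I, Complex.norm_I, ENNReal.ofReal_one, one_mul]
  calc ∫⁻ ω, ‖av μ id (ev ω) (A ω) N (P ω (NB.dl 0))‖ₑ ^ 2 ∂(NB.PP d ν)
      ≤ ∫⁻ ω, (2 * ‖av μ id (ev ω) (reF A ω) N (P ω (NB.dl 0))‖ₑ ^ 2 +
        2 * ‖av μ id (ev ω) (imF A ω) N (P ω (NB.dl 0))‖ₑ ^ 2) ∂(NB.PP d ν) :=
        lintegral_mono hpt
    _ = _ := by
        rw [lintegral_add_left' hm, lintegral_const_mul' _ _ (by simp),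
          lintegral_const_mul' _ _ (by simp)]

end van

end Pool.Agent.H988.RS
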